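import Pool.Agent.N891.GS.Elim
import Pool.Agent.NH29.GN.Stm
import Pool.Agent.NH29.GN.Ncz

/-!
# Equations of bounded degree for the images of a variety under families of finite maps
-/

set_option autoImplicit false
set_option synthInstance.maxHeartbeats 400000

open MvPolynomial

namespace Pool.Agent.Run7.h789.RC

open Pool.Agent.NH29.GN (Idx Mon fv val)

variable {M q : ℕ}

/-- the complementary exponents -/
def eb {q : ℕ} (d : Fin q → ℕ) (b : Fin q) : ℕ := ∏ b' ∈ Finset.univ.erase b, d b'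

theorem eb_mul {q : ℕ} (d : Fin q → ℕ) (b : Fin q) : d b * eb d b = ∏ b', d b' :=
  Finset.mul_prod_erase _ _ (Finset.mem_univ b)

theorem eb_pos {q : ℕ} {d : Fin q → ℕ} (hd : ∀ i, 1 ≤ d i) (b : Fin q) : 1 ≤ eb d b :=
  Finset.one_le_prod' fun i _ => hd i

/-- the homogeneous parts of a polynomial which vanishes on a line through the origin -/
theorem parts_zero {r : ℕ} {K L : Type} [Field K] [CharZero K] [Field L] [Algebra K L]
    (P : MvPolynomial (Fin r) K) (y : Fin r → L) (h : ∀ s : L, aeval (fun i => s * y i) P = 0) (j : ℕ) :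
    aeval y (homogeneousComponent j P) = 0 := by
  classical
  have hL : CharZero L := charZero_of_injective_algebraMap (algebraMap K L).injective
  have hinf : Infinite L := inferInstance
  have hsm : ∀ (s : L) (i : ℕ), aeval (fun l => s * y l) (homogeneousComponent i P) =
      s ^ i * aeval y (homogeneousComponent i P) := by
    intro s i
    have h1 := homogeneousComponent_isHomogeneous i P
    rw [aeval_def, aeval_def, eval₂_eq', eval₂_eq', Finset.mul_sum]
    refine Finset.sum_congr rfl fun β hβ => ?_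
    have h2 := h1 (mem_support_iff.1 hβ)
    rw [Finsupp.weight_apply, Finsupp.sum_fintype _ _ (by simp)] at h2
    simp only [Pi.one_apply, smul_eq_mul, mul_one] at h2
    have h3 : ∏ l, (s * y l) ^ β l = s ^ i * ∏ l, y l ^ β l := by
      simp only [mul_pow, Finset.prod_mul_distrib]
      rw [Finset.prod_pow_eq_pow_sum, h2]
    rw [h3]
    ring
  let Q : Polynomial L := ∑ i ∈ Finset.range (P.totalDegree + 1),
    Polynomial.monomial i (aeval y (homogeneousComponent i P))
  have hQ : Q = 0 := by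
    refine Polynomial.funext fun s => ?_
    rw [Polynomial.eval_zero, ← h s]
    conv_rhs => rw [← sum_homogeneousComponent P]
    rw [map_sum, Polynomial.eval_finsetSum]
    refine Finset.sum_congr rfl fun i _ => ?_
    rw [Polynomial.eval_monomial, hsm, mul_comm]
  by_cases hj : j < P.totalDegree + 1
  · have h1 : Q.coeff j = aeval y (homogeneousComponent j P) := by
      simp only [Q, Polynomial.finsetSum_coeff, Polynomial.coeff_monomial]
      rw [Finset.sum_ite_eq' (Finset.range (P.totalDegree + 1)) j, if_pos (Finset.mem_range.2 hj)]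
    rw [← h1, hQ, Polynomial.coeff_zero]
  · rw [homogeneousComponent_eq_zero _ _ (by omega), map_zero]

section

variable {k₀ : Type} [Field k₀]

/-- the ring of parameters -/
abbrev PR (k₀ : Type) [Field k₀] (M : ℕ) {q : ℕ} (d : Fin q → ℕ) : Type :=
  MvPolynomial (Fin q) (MvPolynomial (Idx M d) k₀)

/-- the generic form -/
noncomputable def gf (k₀ : Type) [Field k₀] (M : ℕ) {q : ℕ} (d : Fin q → ℕ) (b : Fin q) :
    MvPolynomial (Fin (M + 1)) (PR k₀ M d) :=
  ∑ β : Mon M (d b), monomial β.1 (C (X ⟨b, β⟩))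

theorem gf_hom (M : ℕ) {q : ℕ} (d : Fin q → ℕ) (b : Fin q) :
    (gf k₀ M d b).IsHomogeneous (d b) :=
  IsHomogeneous.sum _ _ _ fun β _ => isHomogeneous_monomial _ β.2

variable {d : Fin q → ℕ} {K L : Type} [Field K] [Algebra k₀ K] [Field L] [Algebra K L]

/-- the specialisation -/
noncomputable def sp (k₀ : Type) [Field k₀] [Algebra k₀ K] (t : Idx M d → K) (y : Fin q → L) :
    PR k₀ M d →+* L :=
  eval₂Hom ((algebraMap K L).comp ((aeval t : MvPolynomial (Idx M d) k₀ →ₐ[k₀] K) :
    MvPolynomial (Idx M d) k₀ →+* K)) y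

/-- the specialisation of the coefficients -/
noncomputable def spc (t : Idx M d → K) (a : PR k₀ M d) : MvPolynomial (Fin q) K :=
  map ((aeval t : MvPolynomial (Idx M d) k₀ →ₐ[k₀] K) : MvPolynomial (Idx M d) k₀ →+* K) a

theorem sp_eq (t : Idx M d → K) (y : Fin q → L) (a : PR k₀ M d) :
    sp k₀ t y a = aeval y (spc t a) := by
  unfold sp spc
  rw [coe_eval₂Hom, aeval_def, eval₂_map]

theorem sp_C (t : Idx M d → K) (y : Fin q → L) (a : MvPolynomial (Idx M d) k₀) :
    sp k₀ t y (C a) = algebraMap K L (aeval t a) := by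
  rw [sp_eq]
  unfold spc
  rw [map_C, aeval_C]
  rfl

theorem sp_X (t : Idx M d → K) (y : Fin q → L) (i : Fin q) :
    sp k₀ t y (X i) = y i := by
  rw [sp_eq]
  unfold spc
  rw [map_X, aeval_X]

theorem sp_gf (t : Idx M d → K) (y : Fin q → L) (x : Fin (M + 1) → L) (b : Fin q) :
    eval₂ (sp k₀ t y) x (gf k₀ M d b) = fv t x b := by
  unfold gf fv
  rw [eval₂_sum]
  refine Finset.sum_congr rfl fun β _ => ?_
  rw [eval₂_monomial, sp_C, aeval_X]
  congr 1
  unfold val
  rw [Finsupp.prod_fintype]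
  intro i
  exact pow_zero _

theorem sp_base (t : Idx M d → K) (y : Fin q → L) (x : Fin (M + 1) → L)
    (H : MvPolynomial (Fin (M + 1)) k₀) :
    eval₂ (sp k₀ t y) x (map (algebraMap k₀ (PR k₀ M d)) H) =
      eval₂ ((algebraMap K L).comp (algebraMap k₀ K)) x H := by
  rw [eval₂_map]
  congr 1
  ext c
  rw [RingHom.comp_apply]
  have h1 : algebraMap k₀ (PR k₀ M d) c = C (C c) := rfl
  rw [h1, sp_C, aeval_C]
  rfl

end

/-- a point of `V` -/
def OnV {k₀ K L : Type} [Field k₀] [Field K] [Field L] [Algebra k₀ K] [Algebra K L]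
    (V : Set (MvPolynomial (Fin (M + 1)) k₀)) (x : Fin (M + 1) → L) : Prop :=
  ∀ H ∈ V, eval₂ ((algebraMap K L).comp (algebraMap k₀ K)) x H = 0

/-- `y` is the image of `x` under the powers of the forms -/
def Img {K L : Type} [Field K] [Field L] [Algebra K L] {d : Fin q → ℕ} (t : Idx M d → K)
    (x : Fin (M + 1) → L) (y : Fin q → L) : Prop :=
  ∀ i j, y i * fv t x j ^ eb d j = y j * fv t x i ^ eb d i

/-- **Equations of bounded degree.** -/
theorem elim {k₀ : Type} [Field k₀] [CharZero k₀] {V : Set (MvPolynomial (Fin (M + 1)) k₀)}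
    (hV : ∀ H ∈ V, ∃ e, H.IsHomogeneous e) (d : Fin q → ℕ) :
    ∃ (D : ℕ) (ι : Type), ∀ (K : Type) [Field K] [Algebra k₀ K] (t : Idx M d → K),
      ∃ F : ι → MvPolynomial (Fin q) K,
      (∀ e, ∃ d', d' ≤ D ∧ (F e).IsHomogeneous d') ∧
      (∀ (L : Type) [Field L] [Algebra K L] (x : Fin (M + 1) → L), x ≠ 0 →
        OnV (K := K) V x → ∀ y : Fin q → L, Img t x y → ∀ e, aeval y (F e) = 0) ∧
      (∀ (L : Type) [Field L] [Algebra K L] [IsAlgClosed L] (y : Fin q → L),
        (∀ e, aeval y (F e) = 0) → ∃ x : Fin (M + 1) → L, x ≠ 0 ∧ OnV (K := K) V x ∧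
        Img t x y) := by
  classical
  obtain ⟨Vf, hVf, hspan⟩ := Submodule.fg_span_iff_fg_span_finset_subset V |>.1
    (IsNoetherian.noetherian (Submodule.span (MvPolynomial (Fin (M + 1)) k₀) V))
  have hVz : ∀ (K L : Type) [Field K] [Field L] [Algebra k₀ K] [Algebra K L]
      (x : Fin (M + 1) → L), (∀ H ∈ Vf, eval₂ ((algebraMap K L).comp (algebraMap k₀ K)) x H = 0) →
      OnV (K := K) V x := by
    intro K L _ _ _ _ x hx H hH
    have h1 : H ∈ Ideal.span (Vf : Set (MvPolynomial (Fin (M + 1)) k₀)) := by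
      have h2 : H ∈ Submodule.span (MvPolynomial (Fin (M + 1)) k₀) V := Submodule.subset_span hH
      rw [hspan] at h2
      exact h2
    have h2 : Ideal.span (Vf : Set (MvPolynomial (Fin (M + 1)) k₀)) ≤
        RingHom.ker (eval₂Hom ((algebraMap K L).comp (algebraMap k₀ K)) x) :=
      Ideal.span_le.2 fun P hP => hx P hP
    exact h2 h1
  let κ : Type := {H // H ∈ Vf} ⊕ Fin q × Fin q
  let g : κ → MvPolynomial (Fin (M + 1)) (PR k₀ M d) := fun s => match s with
    | Sum.inl H => map (algebraMap k₀ (PR k₀ M d)) H.1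
    | Sum.inr p => C (X p.1) * gf k₀ M d p.2 ^ eb d p.2 - C (X p.2) * gf k₀ M d p.1 ^ eb d p.1
  have hg : ∀ s, ∃ f, (g s).IsHomogeneous f := by
    rintro (H | ⟨i, j⟩)
    · obtain ⟨e, he⟩ := hV H.1 (hVf H.2)
      exact ⟨e, he.map _⟩
    · refine ⟨∏ b', d b', ?_⟩
      have h1 : ∀ l, ((gf k₀ M d l) ^ eb d l).IsHomogeneous (∏ b', d b') := fun l => by
        have := (gf_hom (k₀ := k₀) M d l).pow (eb d l)
        rwa [eb_mul] at this
      have h2 : ∀ l l', (C (X l) * (gf k₀ M d l') ^ eb d l' :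
          MvPolynomial (Fin (M + 1)) (PR k₀ M d)).IsHomogeneous (∏ b', d b') := fun l l' => by
        have := (isHomogeneous_C (Fin (M + 1)) (X l : PR k₀ M d)).mul (h1 l')
        rwa [zero_add] at this
      exact (h2 i j).sub (h2 j i)
  choose f hf using hg
  obtain ⟨N₀, A, hA1, hA2⟩ := Pool.Agent.N891.GS.main (PR k₀ M d) (M + 1) κ g f hf
  -- the values of the system
  have hval : ∀ (K L : Type) [Field K] [Field L] [Algebra k₀ K] [Algebra K L] (t : Idx M d → K)
      (y : Fin q → L) (x : Fin (M + 1) → L), (∀ s, eval₂ (sp k₀ t y) x (g s) = 0) ↔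
      (OnV (K := K) V x ∧ Img t x y) := by
    intro K L _ _ _ _ t y x
    constructor
    · intro h
      refine ⟨hVz K L x fun H hH => ?_, fun i j => ?_⟩
      · have h1 := h (Sum.inl ⟨H, hH⟩)
        rw [← sp_base t y x H]
        exact h1
      · have h1 := h (Sum.inr (i, j))
        have h2 : eval₂ (sp k₀ t y) x (C (X i) * gf k₀ M d j ^ eb d j -
          C (X j) * gf k₀ M d i ^ eb d i) = 0 := h1
        rw [eval₂_sub, eval₂_mul, eval₂_mul, eval₂_pow, eval₂_pow, eval₂_C, eval₂_C, sp_X, sp_X,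
          sp_gf, sp_gf] at h2
        exact sub_eq_zero.1 h2
    · rintro ⟨h1, h3⟩ (H | ⟨i, j⟩)
      · exact (sp_base t y x H.1).trans (h1 H.1 (hVf H.2))
      · change eval₂ (sp k₀ t y) x (C (X i) * gf k₀ M d j ^ eb d j -
          C (X j) * gf k₀ M d i ^ eb d i) = 0
        rw [eval₂_sub, eval₂_mul, eval₂_mul, eval₂_pow, eval₂_pow, eval₂_C, eval₂_C, sp_X, sp_X,
          sp_gf, sp_gf]
        exact sub_eq_zero.2 (h3 i j)
  refine ⟨A.sup fun a => a.totalDegree, {a // a ∈ A} ×
    Fin (A.sup (fun a => a.totalDegree) + 1), fun K _ _ t => ⟨fun e =>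
    homogeneousComponent e.2 (spc t e.1.1), fun e => ⟨e.2, Nat.lt_succ_iff.1 e.2.2,
    homogeneousComponent_isHomogeneous _ _⟩, ?_, ?_⟩⟩
  · have hK : CharZero K := charZero_of_injective_algebraMap (algebraMap k₀ K).injective
    intro L _ _ x hx h1 y h3 e
    refine parts_zero _ y (fun s => ?_) _
    have h4 : ∀ l, eval₂ (sp k₀ t fun i => s * y i) x (g l) = 0 := by
      refine (hval K L t _ x).2 ⟨h1, fun i j => ?_⟩
      rw [mul_assoc, mul_assoc, h3 i j]
    rw [← sp_eq]
    obtain ⟨j, hj⟩ := Function.ne_iff.1 hx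
    have h5 := hA1 e.1.1 e.1.2 (Finsupp.single j N₀) (by
      rw [Finset.sum_eq_single j]
      · rw [Finsupp.single_eq_same]
      · intro l _ hl
        rw [Finsupp.single_eq_of_ne hl]
      · intro h
        exact absurd (Finset.mem_univ _) h)
    have h6 : Ideal.span (Set.range g) ≤ RingHom.ker (eval₂Hom (sp k₀ t fun i => s * y i) x) :=
      Ideal.span_le.2 (by
        rintro _ ⟨l, rfl⟩
        exact h4 l)
    have h7 := h6 h5
    rw [RingHom.mem_ker, coe_eval₂Hom, eval₂_mul, eval₂_C, eval₂_monomial, map_one, one_mul] at h7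
    have h8 : (Finsupp.single j N₀).prod (fun n e => x n ^ e) = x j ^ N₀ :=
      Finsupp.prod_single_index (h := fun n e => x n ^ e) (pow_zero _)
    rw [h8] at h7
    exact (mul_eq_zero.1 h7).resolve_right (pow_ne_zero _ hj)
  · intro L _ _ _ y hy
    by_contra hcon
    obtain ⟨a, ha, hne⟩ := hA2 L (sp k₀ t y) (fun x hx => by
      by_contra hall
      push Not at hall
      exact hcon ⟨x, hx, (hval K L t y x).1 hall⟩)
    apply hne
    rw [sp_eq]
    conv_lhs => rw [← sum_homogeneousComponent (spc t a)]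
    rw [map_sum]
    refine Finset.sum_eq_zero fun i hi => ?_
    have h1 : i < A.sup (fun a => a.totalDegree) + 1 := by
      have h2 : (spc t a).totalDegree ≤ a.totalDegree :=
        Finset.sup_mono (support_map_subset _ _)
      have h3 : a.totalDegree ≤ A.sup fun a => a.totalDegree :=
        Finset.le_sup (f := fun a => a.totalDegree) ha
      have h4 := Finset.mem_range.1 hi
      omega
    exact hy (⟨a, ha⟩, ⟨i, h1⟩)

end Pool.Agent.Run7.h789.RC
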