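import Pool.Agent.Run7.h789.LG.Sub
import Pool.Agent.Run7.h789.RC.El
import Pool.Agent.NH29.GN.Der
import Pool.Agent.W603.LV.Spec

/-!
# Good coefficients
-/

set_option autoImplicit false
set_option synthInstance.maxHeartbeats 400000

open MvPolynomial FF

namespace Pool.Agent.Run7.h789.RC

open Pool.Agent.NH29.GN (Idx Mon fv val quo NoZero Num2 Bad)
open Pool.Agent.Run7.h789.LG
open Pool.Agent.Run7.h789.FV (ncz_open mord mord_le exists_mord)
open Pool.Agent.W603.LV (Ge ge_mvaeval)

variable {M q : ℕ} {k₀ K : Type} [Field k₀] [Field K] [Algebra k₀ K]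

/-- The forms with the coefficients `t` have no common zero on `V`, and there are no curves in the
strata whose contacts with the hypersurfaces are like those of orbits of one-parameter groups. -/
structure Good (V : Set (MvPolynomial (Fin (M + 1)) k₀)) {d : Fin q → ℕ} (t : Idx M d → K) :
    Prop where
  ncz : ∀ (L : Type) [Field L] [Algebra K L] (x : Fin (M + 1) → L), OnV (K := K) V x →
    (∀ i, fv t x i = 0) → x = 0
  der : ∀ (Z : Type) [Field Z] [Algebra K Z] (D : Derivation K Z Z) (x : Fin (M + 1) → Z)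
    (C : Finset (Fin q)), x ≠ 0 → OnV (K := K) V x → (∀ c ∈ C, fv t x c = 0) →
    (∀ b, b ∉ C → fv t x b ≠ 0) →
    (∀ b, b ∉ C → ∀ b', b' ∉ C → D (d b' * lg D (fv t x b) - d b * lg D (fv t x b')) = 0) →
    ∀ a a', x a' ≠ 0 → D (x a / x a') = 0

theorem good {k₀ : Type} [Field k₀] [CharZero k₀] {n : ℕ}
    {V : Set (MvPolynomial (Fin (M + 1)) k₀)} (hV : ∀ H ∈ V, ∃ e, H.IsHomogeneous e)
    {ℓ : Fin (n + 1) → MvPolynomial (Fin (M + 1)) k₀} (hℓ : ∀ j, (ℓ j).IsHomogeneous 1)
    (hN : NoZero V ℓ) (hq : n + 1 ≤ q) {d : Fin q → ℕ} (hd : ∀ i, 1 ≤ d i)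
    (hNum : ∀ C : Finset (Fin q), C ≠ Finset.univ → Num2 n d C) :
    ∃ Φ : MvPolynomial (Idx M d) k₀, Φ ≠ 0 ∧ ∀ (K : Type) [Field K] [Algebra k₀ K]
      (t : Idx M d → K), aeval t Φ ≠ 0 → Good V t := by
  classical
  obtain ⟨Φ', h3, h4⟩ := ncz_open hV hℓ hN hq hd
  have h1 : ∀ C : Finset (Fin q), ∃ Φ : MvPolynomial (Idx M d) k₀, Φ ≠ 0 ∧ (C ≠ Finset.univ →
      ∀ (K L : Type) [Field K] [Field L] [Algebra k₀ K] [Algebra K L] [IsAlgClosed K]
        (t : Idx M d → K), aeval t Φ ≠ 0 → ∀ x : Fin (M + 1) → L, ¬ Bad k₀ K L V C t x) := by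
    intro C
    by_cases hCu : C = Finset.univ
    · exact ⟨1, one_ne_zero, fun h => absurd hCu h⟩
    · obtain ⟨Φ, h1, h2⟩ := nobad hV hℓ hN hq hd C (hNum C hCu)
      exact ⟨Φ, h1, fun _ => h2⟩
  choose Φ h1 h2 using h1
  refine ⟨(∏ C, Φ C) * Φ', mul_ne_zero (Finset.prod_ne_zero_iff.2 fun C _ => h1 C) h3,
    fun K _ _ t ht => ?_⟩
  rw [map_mul, map_prod, mul_ne_zero_iff, Finset.prod_ne_zero_iff] at ht
  have hncz : ∀ (L : Type) [Field L] [Algebra K L] (x : Fin (M + 1) → L),
      OnV (K := K) V x → (∀ i, fv t x i = 0) → x = 0 := by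
    intro L _ _ x hx hx0
    let _ : Algebra k₀ L := ((algebraMap K L).comp (algebraMap k₀ K)).toAlgebra
    refine h4 L (fun s => algebraMap K L (t s)) ?_ x (fun H hH => hx H hH) hx0
    have h6 : aeval (fun s => algebraMap K L (t s)) Φ' = algebraMap K L (aeval t Φ') := by
      rw [aeval_def, aeval_def, hom_eval₂]
      rfl
    rw [h6]
    exact fun h => ht.2 ((map_eq_zero _).1 h)
  refine ⟨hncz, ?_⟩
  intro Z _ _ D x C hx hxV hxC hoff hD a a' ha'
  by_contra hne
  have hCK : CharZero K := charZero_of_injective_algebraMap (algebraMap k₀ K).injective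
  have hCZ : CharZero Z := charZero_of_injective_algebraMap (algebraMap K Z).injective
  have hCu : C ≠ Finset.univ := by
    intro h
    exact hx (hncz Z x hxV fun i => hxC i (by rw [h]; exact Finset.mem_univ _))
  obtain ⟨K', L', i1, i2, i3, i4, i5, t', x', h6, h7⟩ := bad_of_der (k := K) (k₀ := k₀) (t := t) D
    (V := V) (C := C) (y := x) (fun H hH => hxV H hH) hxC hoff hx (fun b₀ hb₀ b => by
      unfold quo
      split_ifs with hb
      · rw [lg_one, map_zero]
      · rw [lg_div D (pow_ne_zero _ (hoff b hb)) (pow_ne_zero _ (hoff b₀ hb₀)),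
          lg_pow D (hoff b hb), lg_pow D (hoff b₀ hb₀)]
        exact hD b hb b₀ hb₀) ⟨a, a', ha', hne⟩ (ht.1 C (Finset.mem_univ _))
  exact h2 C hCu K' L' t' h6 x' h7

section

variable {V : Set (MvPolynomial (Fin (M + 1)) k₀)} {d : Fin q → ℕ} {t : Idx M d → K} [CharZero K]

theorem Good.der' (h : Good V t) (hd : ∀ i, 1 ≤ d i) {Z : Type} [Field Z] [Algebra K Z]
    (D : Derivation K Z Z) {x : Fin (M + 1) → Z} (hx : x ≠ 0) (hV : OnV (K := K) V x)
    (hD : ∀ b, fv t x b ≠ 0 → ∀ b', fv t x b' ≠ 0 →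
      D (eb d b * lg D (fv t x b) - eb d b' * lg D (fv t x b')) = 0) (a a' : Fin (M + 1))
    (ha' : x a' ≠ 0) : D (x a / x a') = 0 := by
  classical
  refine h.der Z D x (Finset.univ.filter fun b => fv t x b = 0) hx hV
    (fun c hc => (Finset.mem_filter.1 hc).2)
    (fun b hb h0 => hb (Finset.mem_filter.2 ⟨Finset.mem_univ _, h0⟩)) (fun b hb b' hb' => ?_)
    a a' ha'
  have hb0 : fv t x b ≠ 0 := fun h0 => hb (Finset.mem_filter.2 ⟨Finset.mem_univ _, h0⟩)
  have hb0' : fv t x b' ≠ 0 := fun h0 => hb' (Finset.mem_filter.2 ⟨Finset.mem_univ _, h0⟩)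
  have hCZ : CharZero Z := charZero_of_injective_algebraMap (algebraMap K Z).injective
  have hnat : ∀ (m : ℕ) (z : Z), D ((m : Z) * z) = m * D z := by
    intro m z
    rw [D.leibniz, D.map_natCast, smul_zero, add_zero, smul_eq_mul]
  have h1 := hD b hb0 b' hb0'
  rw [map_sub, hnat, hnat] at h1 ⊢
  have h2 : ((d b * eb d b : ℕ) : Z) = ((d b' * eb d b' : ℕ) : Z) := by
    rw [eb_mul, eb_mul]
  push_cast at h2
  have h3 : (eb d b : Z) ≠ 0 := by
    have := eb_pos hd b
    exact_mod_cast (by omega : eb d b ≠ 0)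
  have h4 : (eb d b' : Z) ≠ 0 := by
    have := eb_pos hd b'
    exact_mod_cast (by omega : eb d b' ≠ 0)
  have h5 : (eb d b : Z) * eb d b' * ((d b' : Z) * D (lg D (fv t x b)) -
      d b * D (lg D (fv t x b'))) = 0 := by
    linear_combination (d b * eb d b : Z) * h1 -
      (eb d b : Z) * D (lg D (fv t x b)) * h2
  exact (mul_eq_zero.1 h5).resolve_left (mul_ne_zero h3 h4)

omit [CharZero K] in
/-- a nonzero value of one of the forms -/
theorem Good.exists_ne (h : Good V t) {Z : Type} [Field Z] [Algebra K Z] {x : Fin (M + 1) → Z}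
    (hx : x ≠ 0) (hV : OnV (K := K) V x) : ∃ b, fv t x b ≠ 0 := by
  by_contra hcon
  push Not at hcon
  exact hx (h.ncz Z x hV hcon)

omit [CharZero K] in
/-- the logarithmic derivatives at constant points -/
theorem lg_fv {Z : Type} [Field Z] [Algebra K Z] (D : Derivation K Z Z) {x : Fin (M + 1) → Z}
    {a' : Fin (M + 1)} (ha' : x a' ≠ 0) (hD : ∀ a, D (x a / x a') = 0) {b : Fin q}
    (hb : fv t x b ≠ 0) : lg D (fv t x b) = d b * lg D (x a') := by
  have h1 : x = fun a => x a' * (x a / x a') := by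
    funext a
    rw [mul_div_cancel₀ _ ha']
  have h2 : fv t x b = x a' ^ d b * fv t (fun a => x a / x a') b := by
    conv_lhs => rw [h1]
    exact Pool.Agent.NH29.GN.Ncz.fv_smul t (x a') _ b
  have h3 : D (fv t (fun a => x a / x a') b) = 0 := by
    unfold fv
    rw [map_sum]
    refine Finset.sum_eq_zero fun β _ => ?_
    rw [D.leibniz, D.map_algebraMap, smul_zero, add_zero]
    have h4 : D (val (fun a => x a / x a') β.1) = 0 := by
      unfold val
      refine Finset.prod_induction (fun a => (x a / x a') ^ β.1 a) (fun z => D z = 0) ?_ ?_ ?_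
      · intro u v hu hv
        rw [D.leibniz, hu, hv, smul_zero, smul_zero, add_zero]
      · exact D.map_one_eq_zero
      · intro a _
        rw [D.leibniz_pow, hD a, smul_zero, smul_zero]
    rw [h4, smul_zero]
  have h4 : fv t (fun a => x a / x a') b ≠ 0 := by
    intro h0
    rw [h2, h0, mul_zero] at hb
    exact hb rfl
  rw [h2, lg_mul D (pow_ne_zero _ ha') h4, lg_pow D ha']
  have h5 : lg D (fv t (fun a => x a / x a') b) = 0 := by
    unfold lg
    rw [h3, zero_div]
  rw [h5, add_zero]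

/-- **Finiteness.** If the quotients of the powers of the forms lie in a subfield, the point is
algebraic over this subfield. -/
theorem Good.alg (h : Good V t) (hd : ∀ i, 1 ≤ d i) {Z : Type} [Field Z] [Algebra K Z]
    (F : IntermediateField K Z) {x : Fin (M + 1) → Z} (hx : x ≠ 0) (hV : OnV (K := K) V x)
    (hF : ∀ b, fv t x b ≠ 0 → ∀ b', fv t x b' ≠ 0 →
      fv t x b ^ eb d b / fv t x b' ^ eb d b' ∈ F) (a a' : Fin (M + 1)) (ha' : x a' ≠ 0) :
    IsAlgebraic F (x a / x a') := by
  by_contra hcon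
  have hi : AlgebraicIndependent F (fun _ : Unit => x a / x a') := by
    rw [algebraicIndependent_unique_type_iff]
    exact hcon
  obtain ⟨D, hD1, hD2⟩ := Pool.Agent.NH29.GN.der K F Z Unit (fun _ => x a / x a') hi 0 (fun _ => 1)
  have h1 := h.der' hd D hx hV (fun b hb b' hb' => by
    have h2 : D (fv t x b ^ eb d b / fv t x b' ^ eb d b') = 0 := by
      have := hD1 ⟨_, hF b hb b' hb'⟩
      exact this
    have h3 : lg D (fv t x b ^ eb d b / fv t x b' ^ eb d b') = 0 := by
      unfold lg
      rw [h2, zero_div]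
    rw [lg_div D (pow_ne_zero _ hb) (pow_ne_zero _ hb'), lg_pow D hb, lg_pow D hb'] at h3
    rw [h3, map_zero]) a a' ha'
  rw [hD2 ()] at h1
  exact one_ne_zero h1

omit [CharZero K] in
/-- **Orders.** At every place one of the forms has no contact with the point. -/
theorem Good.ord (h : Good V t) [IsAlgClosed K] (hVh : ∀ H ∈ V, ∃ e, H.IsHomogeneous e) {L : Type}
    [Field L] [Algebra K L] {x : Fin (M + 1) → L} (hx : x ≠ 0) (hV : OnV (K := K) V x)
    (P : Place K L) : (∀ b, fv t x b ≠ 0 → d b * mord P x ≤ P.ord (fv t x b)) ∧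
      ∃ b, fv t x b ≠ 0 ∧ P.ord (fv t x b) = d b * mord P x := by
  classical
  have hge : ∀ b, fv t x b ≠ 0 → d b * mord P x ≤ P.ord (fv t x b) := by
    intro b hb
    rcases Pool.Agent.Run7.h789.FV.ge_fv P (fun s => algebraMap K L (t s)) x b with h2 | h2
    · exact absurd h2 hb
    · have h3 : mord P (fun β => algebraMap K L (t ⟨b, β⟩)) = 0 := by
        refine Pool.Agent.Run7.h789.FV.mord_eq_zero P
          (Pool.Agent.Run7.h789.FV.t_ne (t := fun s => algebraMap K L (t s)) (x := x) hb)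
          fun j hj => ?_
        refine P.ord_const ?_
        rintro h
        apply hj
        rw [h, map_zero]
      rw [h3, zero_add] at h2
      exact h2
  refine ⟨hge, ?_⟩
  by_contra hcon
  push Not at hcon
  have hgt : ∀ b, fv t x b ≠ 0 → d b * mord P x < P.ord (fv t x b) := fun b hb =>
    lt_of_le_of_ne (hge b hb) (hcon b hb).symm
  obtain ⟨a', ha', hord⟩ := exists_mord P (Function.ne_iff.1 hx)
  -- the normalised point
  let x' : Fin (M + 1) → L := fun a => x a / x a'
  have hx' : ∀ a, Ge P 0 (x' a) := by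
    intro a
    by_cases h0 : x a = 0
    · left
      change x a / x a' = 0
      rw [h0, zero_div]
    · right
      change 0 ≤ P.ord (x a / x a')
      rw [P.ord_div h0 ha']
      have := mord_le P h0
      omega
  have hfv : ∀ b, fv t x' b = fv t x b / x a' ^ d b := by
    intro b
    have h1 : x' = fun a => (x a')⁻¹ * x a := by
      funext a
      change x a / x a' = _
      rw [div_eq_inv_mul]
    rw [h1, Pool.Agent.NH29.GN.Ncz.fv_smul, inv_pow, div_eq_inv_mul]
  have hfx' : ∀ b, Ge P 1 (fv t x' b) := by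
    intro b
    by_cases h0 : fv t x b = 0
    · left
      rw [hfv, h0, zero_div]
    · right
      rw [hfv, P.ord_div h0 (pow_ne_zero _ ha'), P.ord_pow]
      have := hgt b h0
      rw [hord]
      omega
  have hVx' : OnV (K := K) V x' := by
    intro H hH
    obtain ⟨e, he⟩ := hVh H hH
    have h1 := hV H hH
    rw [eval₂_eq'] at h1 ⊢
    have h2 : ∀ β ∈ H.support, ((algebraMap K L).comp (algebraMap k₀ K)) (coeff β H) *
        ∏ i, x' i ^ β i = (x a' ^ e)⁻¹ * (((algebraMap K L).comp (algebraMap k₀ K)) (coeff β H) *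
        ∏ i, x i ^ β i) := by
      intro β hβ
      have h3 := he (mem_support_iff.1 hβ)
      rw [Finsupp.weight_apply, Finsupp.sum_fintype _ _ (by simp)] at h3
      simp only [Pi.one_apply, smul_eq_mul, mul_one] at h3
      have h4 : ∏ i, x' i ^ β i = (x a' ^ e)⁻¹ * ∏ i, x i ^ β i := by
        have h5 : ∏ i, x' i ^ β i = (∏ i, x i ^ β i) / ∏ i, x a' ^ β i := by
          rw [← Finset.prod_div_distrib]
          exact Finset.prod_congr rfl fun i _ => div_pow _ _ _
        rw [h5, Finset.prod_pow_eq_pow_sum, h3, div_eq_inv_mul]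
      rw [h4]
      ring
    rw [Finset.sum_congr rfl h2, ← Finset.mul_sum, h1, mul_zero]
  -- the Nullstellensatz
  let g : {H // H ∈ V} ⊕ Fin q → MvPolynomial (Fin (M + 1)) K := fun s => match s with
    | Sum.inl H => map (algebraMap k₀ K) H.1
    | Sum.inr b => ∑ β : Mon M (d b), monomial β.1 (t ⟨b, β⟩)
  have hgb : ∀ (L' : Type) [Field L'] [Algebra K L'] (z : Fin (M + 1) → L') (b : Fin q),
      aeval z (g (Sum.inr b)) = fv t z b := by
    intro L' _ _ z b
    change aeval z (∑ β : Mon M (d b), monomial β.1 (t ⟨b, β⟩)) = _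
    unfold fv
    rw [map_sum]
    refine Finset.sum_congr rfl fun β _ => ?_
    rw [aeval_monomial]
    congr 1
    unfold val
    rw [Finsupp.prod_fintype]
    intro i
    exact pow_zero _
  have hgV : ∀ (L' : Type) [Field L'] [Algebra K L'] (z : Fin (M + 1) → L') (H : {H // H ∈ V}),
      aeval z (g (Sum.inl H)) = eval₂ ((algebraMap K L').comp (algebraMap k₀ K)) z H.1 := by
    intro L' _ _ z H
    change aeval z (map (algebraMap k₀ K) H.1) = _
    rw [aeval_def, eval₂_map]
  obtain ⟨N, hN⟩ := Pool.Agent.N891.GS.nullst g (fun z hz => by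
    by_contra hall
    push Not at hall
    refine hz (h.ncz K z (fun H hH => ?_) fun b => ?_)
    · have h1 := hall (Sum.inl ⟨H, hH⟩)
      rw [← hgV K z ⟨H, hH⟩]
      exact h1
    · have h1 := hall (Sum.inr b)
      rw [← hgb K z b]
      exact h1)
  have h1 := hN (Finsupp.single a' N) (by
    rw [Finset.sum_eq_single a']
    · rw [Finsupp.single_eq_same]
    · intro l _ hl
      rw [Finsupp.single_eq_of_ne hl]
    · intro h
      exact absurd (Finset.mem_univ _) h)
  have h2 : Ge P 1 (aeval x' (monomial (Finsupp.single a' N) (1 : K))) := by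
    refine Submodule.span_induction (p := fun T _ => Ge P 1 (aeval x' T)) ?_ ?_ ?_ ?_ h1
    · rintro _ ⟨s | b, rfl⟩
      · left
        rw [hgV]
        exact hVx' s.1 s.2
      · rw [hgb]
        exact hfx' b
    · left
      rw [map_zero]
    · intro u v _ _ hu hv
      rw [map_add]
      exact hu.add hv
    · intro c u _ hu
      rw [smul_eq_mul, map_mul]
      have := (ge_mvaeval P hx' c).mul hu
      rwa [zero_add] at this
  rw [aeval_monomial, map_one, one_mul, Finsupp.prod_single_index (h := fun n e => x' n ^ e)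
    (pow_zero _)] at h2
  have h3 : x' a' = 1 := div_self ha'
  rw [h3, one_pow] at h2
  rcases h2 with h2 | h2
  · exact one_ne_zero h2
  · rw [P.ord_one] at h2
    omega

end

end Pool.Agent.Run7.h789.RC
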