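import Pool.Agent.Run7.h789.FV.Fin
import Pool.Agent.Run7.h789.RC.Gd

/-!
# Degrees of curves without contacts of small order
-/

set_option autoImplicit false

open MvPolynomial FF

namespace Pool.Agent.Run7.h789.RC

open Pool.Agent.NH29.GN (Idx Mon fv val NoZero Num2)
open Pool.Agent.Run7.h789.FV
open Pool.Agent.W603.LV Pool.Agent.W603.PV

/-- coefficient vectors of constants -/
theorem mht_const_le {k L : Type} [Field k] [Field L] [CharZero k] [IsAlgClosed k] [Algebra k L]
    [IsFF k L] {ι : Type} [Finite ι] (y : ι → k) :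
    mht k (fun j => algebraMap k L (y j)) ≤ 0 := by
  have : Fintype ι := Fintype.ofFinite ι
  by_cases hy : y = 0
  · have h7 : (fun j => algebraMap k L (y j)) = fun _ => (0 : L) := by
      funext j
      rw [hy, Pi.zero_apply, map_zero]
    rw [h7]
    unfold mht
    rw [finsum_eq_zero_of_forall_eq_zero, neg_zero]
    intro P
    unfold mord
    have h8 : IsEmpty {j : ι // (fun _ => (0 : L)) j ≠ 0} := ⟨fun j => j.2 rfl⟩
    rw [iInf_of_isEmpty, Int.csInf_empty]
  · obtain ⟨a₀, ha₀⟩ := Function.ne_iff.1 hy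
    have h1 : (fun j => algebraMap k L (y j)) a₀ ≠ 0 := fun h => ha₀ ((map_eq_zero _).1 h)
    refine (mht_le (k := k) (fun j => algebraMap k L (y j)) h1).trans
      (le_of_eq (Finset.sum_eq_zero fun a _ => ?_))
    rw [← map_div₀]
    exact hgt_const _

theorem mord_const {k L : Type} [Field k] [Field L] [Algebra k L] {ι : Type} [Finite ι]
    (P : Place k L) {y : ι → k} (hy : ∃ j, y j ≠ 0) :
    mord P (fun j => algebraMap k L (y j)) = 0 := by
  refine mord_eq_zero P ?_ fun j hj => ?_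
  · obtain ⟨j, hj⟩ := hy
    exact ⟨j, fun h => hj ((map_eq_zero _).1 h)⟩
  · refine P.ord_const ?_
    rintro h
    exact hj (by rw [h, map_zero])

/-- **Degrees.** -/
theorem hgt_main {k₀ : Type} [Field k₀] [CharZero k₀] {M n q : ℕ}
    {V : Set (MvPolynomial (Fin (M + 1)) k₀)} (hV : ∀ H ∈ V, ∃ e, H.IsHomogeneous e)
    {ℓ : Fin (n + 1) → MvPolynomial (Fin (M + 1)) k₀} (hℓ : ∀ j, (ℓ j).IsHomogeneous 1)
    (hN : NoZero V ℓ) (hq : n + 1 ≤ q) {d : Fin q → ℕ} (hd : ∀ i, 1 ≤ d i)
    (hNum : ∀ C : Finset (Fin q), C ≠ Finset.univ → Num2 n d C) :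
    ∃ Φ : MvPolynomial (Idx M d) k₀, Φ ≠ 0 ∧ ∃ A μ : ℕ,
      ∀ (k L : Type) [Field k] [IsAlgClosed k] [Field L] [Algebra k₀ k] [Algebra k L] [IsFF k L]
        (t : Idx M d → k), aeval t Φ ≠ 0 → ∀ x : Fin (M + 1) → L, x ≠ 0 → OnV (K := k) V x →
        (∀ (P : Place k L) (b : Fin q), fv t x b ≠ 0 →
          P.ord (fv t x b) ≤ d b * mord P x ∨ d b * mord P x + μ ≤ P.ord (fv t x b)) →
        pht k x ≤ A * max (canDeg k L) 0 := by
  obtain ⟨Φ, h1, A, μ, h2⟩ := fv_all (fun _ => 0) hV hℓ hN hq hd hNum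
  refine ⟨Φ, h1, A, μ, fun k L _ _ _ _ _ _ t ht x hx hxV hc => ?_⟩
  have hk : CharZero k := charZero_of_injective_algebraMap (algebraMap k₀ k).injective
  let _ : Algebra k₀ L := ((algebraMap k L).comp (algebraMap k₀ k)).toAlgebra
  have htow : IsScalarTower k₀ k L := IsScalarTower.of_algebraMap_eq fun _ => rfl
  let t' : Idx M d → L := fun s => algebraMap k L (t s)
  have ht' : aeval t' Φ ≠ 0 := by
    have h6 : aeval t' Φ = algebraMap k L (aeval t Φ) := by
      rw [aeval_def, aeval_def, hom_eval₂]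
      rfl
    rw [h6]
    exact fun h => ht ((map_eq_zero _).1 h)
  have hfv : ∀ b, fv (K := L) t' x b = fv t x b := fun b => rfl
  obtain ⟨-, h3⟩ := h2 k L 0 (fun a => by rw [hgt_base (k := k)]; simp) t' ht'
  obtain ⟨-, h4⟩ := h3 x hx (fun H hH => hxV H hH)
  refine h4.trans (mul_le_mul_of_nonneg_left ?_ (Int.natCast_nonneg _))
  have hlow : low k μ (van t' x) t' x = ∅ := by
    ext P
    simp only [Set.mem_empty_iff_false, iff_false]
    rintro ⟨b, hb, h5, h6⟩
    have hb0 : fv t x b ≠ 0 := by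
      intro h0
      apply hb
      simp only [van, Finset.mem_filter, Finset.mem_univ, true_and]
      exact (hfv b).trans h0
    have h7 : mord P (fun β : Mon M (d b) => t' ⟨b, β⟩) = 0 := by
      refine mord_const P (y := fun β => t ⟨b, β⟩) ?_
      by_contra hcon
      push Not at hcon
      apply hb0
      unfold fv
      refine Finset.sum_eq_zero fun β _ => ?_
      rw [hcon β, map_zero, zero_mul]
    rw [h7, hfv] at h5 h6
    rcases hc P b hb0 with h8 | h8 <;> omega
  unfold rhsL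
  rw [hlow, Set.ncard_empty]
  have h5 : ∑ b, mht k (fun β : Mon M (d b) => t' ⟨b, β⟩) ≤ 0 := by
    refine Finset.sum_nonpos fun b _ => ?_
    have : Fintype (Mon M (d b)) := Pool.Agent.NH29.GN.fintype_mon M (d b)
    exact mht_const_le _
  simp only [Nat.cast_zero, add_zero]
  linarith

end Pool.Agent.Run7.h789.RC
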