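import Pool.Agent.Run7.h34.UG.Alg
import Pool.Agent.Run7.h789.RC.Gd

/-!
# The images under good forms have no special points
-/

set_option autoImplicit false
set_option synthInstance.maxHeartbeats 400000

open MvPolynomial FF

namespace Pool.Agent.Run7.h789.RC

open Pool.Agent.NH29.GN (Idx Mon fv)
open Pool.Agent.Run7.h789.LG
open Pool.Agent.W602.GT (wc val_wc IsForm coords LogGeneralType)
open Pool.Agent.Run7.h789.FV (mord mord_le exists_mord)

theorem exists_euler (L : Type) [Field L] [CharZero L] : ∃ (Z : Type) (_ : Field Z)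
    (_ : Algebra L Z) (_ : IsAlgClosed Z) (s : Z) (D : Derivation L Z Z), s ≠ 0 ∧ D s = s := by
  let Z := AlgebraicClosure (RatFunc L)
  let s : Z := algebraMap (RatFunc L) Z RatFunc.X
  have hs : Transcendental L s := by
    have h1 : Transcendental L (RatFunc.X : RatFunc L) := RatFunc.transcendental_X
    exact (transcendental_algebraMap_iff (algebraMap (RatFunc L) Z).injective).2 h1
  have hi : AlgebraicIndependent L (fun _ : Unit => s) := by
    rw [algebraicIndependent_unique_type_iff]
    exact hs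
  obtain ⟨D, -, hD⟩ := Pool.Agent.NH29.GN.der L L Z Unit (fun _ => s) hi 0 (fun _ => s)
  refine ⟨Z, inferInstance, inferInstance, inferInstance, s, D, ?_, hD ()⟩
  intro h
  have h1 : (RatFunc.X : RatFunc L) = 0 := (map_eq_zero (algebraMap (RatFunc L) Z)).1 h
  exact RatFunc.X_ne_zero h1

variable {M r : ℕ} {k₀ K : Type} [Field k₀] [Field K] [Algebra k₀ K]

/-- the lifting property of a system of equations for the image -/
def Lifts (V : Set (MvPolynomial (Fin (M + 1)) k₀)) {d : Fin (r + 1) → ℕ} (t : Idx M d → K)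
    {ι : Type} (F : ι → MvPolynomial (Fin (r + 1)) K) : Prop :=
  ∀ (L : Type) [Field L] [Algebra K L] [IsAlgClosed L] (y : Fin (r + 1) → L),
    (∀ e, aeval y (F e) = 0) → ∃ x : Fin (M + 1) → L, x ≠ 0 ∧ OnV (K := K) V x ∧ Img t x y

variable {V : Set (MvPolynomial (Fin (M + 1)) k₀)} {d : Fin (r + 1) → ℕ} {t : Idx M d → K}

/-- the vanishing of the coordinates of the image -/
theorem Good.zero_iff (h : Good V t) (hd : ∀ i, 1 ≤ d i) {Z : Type} [Field Z] [Algebra K Z]
    {x : Fin (M + 1) → Z} (hx : x ≠ 0) (hV : OnV (K := K) V x) {y : Fin (r + 1) → Z} (hy : y ≠ 0)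
    (hrel : Img t x y) (b : Fin (r + 1)) : fv t x b = 0 ↔ y b = 0 := by
  obtain ⟨j, hj⟩ := h.exists_ne hx hV
  obtain ⟨i, hi⟩ := Function.ne_iff.1 hy
  have hyj : y j ≠ 0 := by
    intro h0
    have h1 := hrel i j
    rw [h0, zero_mul] at h1
    exact mul_ne_zero hi (pow_ne_zero _ hj) h1
  have h2 := hrel b j
  constructor
  · intro h0
    rw [h0, zero_pow (by have := eb_pos hd b; omega), mul_zero] at h2
    exact (mul_eq_zero.1 h2).resolve_right (pow_ne_zero _ hj)
  · intro h0
    rw [h0, zero_mul] at h2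
    by_contra h3
    exact pow_ne_zero _ h3 ((mul_eq_zero.1 h2.symm).resolve_left hyj)

/-- **No special points.** -/
theorem nospec [CharZero K] (h : Good V t) (hd : ∀ i, 1 ≤ d i) {ι : Type}
    {F : ι → MvPolynomial (Fin (r + 1)) K} (hF : Lifts V t F) {L : Type} [Field L]
    [Algebra K L] {y : Fin (r + 1) → L} {b : Fin (r + 1) → ℤ}
    (hb : ∃ i i', y i ≠ 0 ∧ y i' ≠ 0 ∧ b i ≠ b i')
    (hw : ∀ e v, Pool.Agent.W602.GT.val y (wc b v (F e)) = 0) : False := by
  classical
  obtain ⟨i₁, i₂, hi₁, hi₂, hne⟩ := hb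
  have hL : CharZero L := charZero_of_injective_algebraMap (algebraMap K L).injective
  obtain ⟨Z, _, _, _, s, D, hs, hDs⟩ := exists_euler L
  let _ : Algebra K Z := ((algebraMap L Z).comp (algebraMap K L)).toAlgebra
  have htow : IsScalarTower K L Z := IsScalarTower.of_algebraMap_eq fun _ => rfl
  have hZ : CharZero Z := charZero_of_injective_algebraMap (algebraMap K Z).injective
  obtain ⟨y', hy'⟩ : ∃ y' : Fin (r + 1) → Z, y' = fun i => algebraMap L Z (y i) * s ^ b i :=
    ⟨_, rfl⟩
  have hy'0 : ∀ i, y' i = 0 ↔ y i = 0 := by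
    intro i
    rw [hy']
    simp only [mul_eq_zero, map_eq_zero]
    exact ⟨fun h => h.resolve_right (zpow_ne_zero _ hs), Or.inl⟩
  have hF' : ∀ e, aeval y' (F e) = 0 := by
    intro e
    have h1 : aeval y' (F e) = ∑ α ∈ (F e).support, algebraMap L Z
        (algebraMap K L (coeff α (F e)) * ∏ j, y j ^ α j) * s ^ (∑ j, (α j : ℤ) * b j) := by
      rw [aeval_def, eval₂_eq']
      refine Finset.sum_congr rfl fun α _ => ?_
      rw [map_mul, map_prod, hy']
      have h2 : ∏ j, (algebraMap L Z (y j) * s ^ b j) ^ α j =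
          (∏ j, algebraMap L Z (y j ^ α j)) * s ^ (∑ j, (α j : ℤ) * b j) := by
        rw [Finset.prod_congr rfl fun j _ => mul_pow _ _ _, Finset.prod_mul_distrib]
        congr 1
        · exact Finset.prod_congr rfl fun j _ => (map_pow _ _ _).symm
        · have h3 : ∀ T : Finset (Fin (r + 1)), ∏ j ∈ T, (s ^ b j) ^ α j =
              s ^ (∑ j ∈ T, (α j : ℤ) * b j) := by
            intro T
            induction T using Finset.induction_on with
            | empty => simp
            | insert a T ha ih =>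
              rw [Finset.prod_insert ha, Finset.sum_insert ha, ih, zpow_add₀ hs, ← zpow_natCast,
                ← zpow_mul, mul_comm (b a)]
          exact h3 _
      rw [h2]
      have h4 : algebraMap K Z (coeff α (F e)) = algebraMap L Z (algebraMap K L (coeff α (F e))) :=
        rfl
      rw [h4]
      ring
    rw [h1, ← Finset.sum_fiberwise_of_maps_to (s := (F e).support)
      (t := (F e).support.image fun α => ∑ j, (α j : ℤ) * b j)
      (g := fun α => ∑ j, (α j : ℤ) * b j)
      (fun α hα => Finset.mem_image_of_mem _ hα)]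
    refine Finset.sum_eq_zero fun v _ => ?_
    have h2 := hw e v
    rw [val_wc] at h2
    have h3 : ∑ α ∈ (F e).support with ∑ j, (α j : ℤ) * b j = v, algebraMap L Z
        (algebraMap K L (coeff α (F e)) * ∏ j, y j ^ α j) * s ^ (∑ j, (α j : ℤ) * b j) =
        algebraMap L Z (∑ α ∈ (F e).support with ∑ j, (α j : ℤ) * b j = v,
          algebraMap K L (coeff α (F e)) * ∏ j, y j ^ α j) * s ^ v := by
      rw [map_sum, Finset.sum_mul]
      refine Finset.sum_congr rfl fun α hα => ?_
      rw [(Finset.mem_filter.1 hα).2]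
    rw [h3, h2, map_zero, zero_mul]
  obtain ⟨x, hx, hxV, hrel⟩ := hF Z y' hF'
  have hy'n : y' ≠ 0 := fun h0 => hi₁ ((hy'0 i₁).1 (congrFun h0 i₁))
  have hz := h.zero_iff hd hx hxV hy'n hrel
  let D' : Derivation K Z Z := D.restrictScalars K
  have hlgy : ∀ i, y i ≠ 0 → lg D' (y' i) = b i := by
    intro i hi
    have h1 : lg D' (algebraMap L Z (y i)) = 0 := by
      unfold lg
      have : D' (algebraMap L Z (y i)) = 0 := D.map_algebraMap _
      rw [this, zero_div]
    have h2 : lg D' s = 1 := by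
      unfold lg
      have : D' s = s := hDs
      rw [this, div_self hs]
    rw [hy']
    change lg D' (algebraMap L Z (y i) * s ^ b i) = b i
    rw [lg_mul D' (fun h0 => hi ((map_eq_zero _).1 h0)) (zpow_ne_zero _ hs), h1, lg_zpow D' hs, h2,
      zero_add, mul_one]
  have hyf : ∀ i, fv t x i ≠ 0 → y i ≠ 0 := fun i hi h0 => hi ((hz i).2 ((hy'0 i).2 h0))
  have hfy : ∀ i, y i ≠ 0 → fv t x i ≠ 0 := fun i hi h0 => hi ((hy'0 i).1 ((hz i).1 h0))
  have hlg : ∀ i j, fv t x i ≠ 0 → fv t x j ≠ 0 → (eb d i : Z) * lg D' (fv t x i) -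
      eb d j * lg D' (fv t x j) = b i - b j := by
    intro i j hi hj
    have h1 := congrArg (lg D') (hrel i j)
    have h4 := fun h0 => hyf i hi ((hy'0 i).1 h0)
    have h5 := fun h0 => hyf j hj ((hy'0 j).1 h0)
    rw [lg_mul D' h4 (pow_ne_zero _ hj), lg_mul D' h5 (pow_ne_zero _ hi), lg_pow D' hj,
      lg_pow D' hi, hlgy i (hyf i hi), hlgy j (hyf j hj)] at h1
    linear_combination -h1
  obtain ⟨a', ha'⟩ := Function.ne_iff.1 hx
  have hconst := fun a => h.der' hd D' hx hxV (fun i hi j hj => by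
    rw [hlg i j hi hj]
    have h1 : ((b i : Z) - b j) = ((b i - b j : ℤ) : Z) := by push_cast; rfl
    rw [h1]
    exact D'.map_intCast _) a a' ha'
  have h4 : ∀ i, fv t x i ≠ 0 → (eb d i : Z) * lg D' (fv t x i) =
      (∏ b', d b' : ℕ) * lg D' (x a') := by
    intro i hi
    rw [lg_fv D' ha' hconst hi, ← mul_assoc, ← eb_mul d i]
    push_cast
    ring
  have h5 := hlg i₁ i₂ (hfy _ hi₁) (hfy _ hi₂)
  rw [h4 _ (hfy _ hi₁), h4 _ (hfy _ hi₂), sub_self] at h5
  apply hne
  have h6 : (b i₁ : Z) = b i₂ := by linear_combination -h5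
  exact_mod_cast h6

/-- **Subvarieties.** Points with highly ramified contacts off a set of places. -/
theorem lgt_cover [IsAlgClosed K] [CharZero K] (h : Good V t)
    (hVh : ∀ H ∈ V, ∃ e, H.IsHomogeneous e) (hd : ∀ i, 1 ≤ d i) {D : ℕ} {ι : Type}
    {F : ι → MvPolynomial (Fin (r + 1)) K} (hFd : ∀ e, ∃ d', d' ≤ D ∧ (F e).IsHomogeneous d')
    (hF : Lifts V t F) {L : Type} [Field L] [Algebra K L] {x : Fin (M + 1) → L} (hx : x ≠ 0)
    (hV : OnV (K := K) V x) (hFx : ∀ y : Fin (r + 1) → L, Img t x y → ∀ e, aeval y (F e) = 0)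
    {w : ℕ} (hw : 0 < w) (htr : Algebra.trdeg K L = w)
    (halg : Algebra.IsAlgebraic (coords K x) L)
    {Bd : Place K L → Prop}
    (hram : ∀ P : Place K L, ¬ Bd P → (∃ b, fv t x b ≠ 0 ∧ P.ord (fv t x b) ≠ d b * mord P x) →
      ∃ b, fv t x b ≠ 0 ∧ d b * mord P x + Run7.h34.UG.mm r D ≤ P.ord (fv t x b)) :
    LogGeneralType K L w Bd := by
  classical
  by_contra hgt
  obtain ⟨y, hy⟩ : ∃ y : Fin (r + 1) → L, y = fun b => fv t x b ^ eb d b := ⟨_, rfl⟩
  have himg : Img t x y := fun i j => by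
    rw [hy]
    exact mul_comm _ _
  have hy0 : ∀ b, y b = 0 ↔ fv t x b = 0 := by
    intro b
    rw [hy]
    have := eb_pos hd b
    exact pow_eq_zero_iff (by omega)
  obtain ⟨b₀, hb₀⟩ := h.exists_ne hx hV
  have hyn : y ≠ 0 := fun h0 => hb₀ ((hy0 b₀).1 (congrFun h0 b₀))
  -- algebraicity
  have hgen : Algebra.IsAlgebraic (coords K y) L := by
    obtain ⟨a', ha'⟩ := Function.ne_iff.1 hx
    have h1 : ∀ a a', IsAlgebraic (coords K y) (x a / x a') := by
      intro a a'
      by_cases h0 : x a' = 0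
      · rw [h0, div_zero]
        exact isAlgebraic_zero
      · refine h.alg hd (coords K y) hx hV (fun b hb b' hb' => ?_) a a' h0
        refine IntermediateField.subset_adjoin K _ ⟨b, b', fun h0 => hb' ((hy0 b').1 h0), ?_⟩
        rw [hy]
    have h2 : coords K x ≤ (algebraicClosure (coords K y) L).restrictScalars K := by
      unfold coords
      rw [IntermediateField.adjoin_le_iff]
      rintro _ ⟨a, a', -, rfl⟩
      exact mem_algebraicClosure_iff.2 (h1 a a')
    have h3 : Algebra.IsAlgebraic (algebraicClosure (coords K y) L) L := by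
      refine ⟨fun z => ?_⟩
      obtain ⟨p, hp, hpz⟩ := halg.isAlgebraic z
      let f : coords K x →+* algebraicClosure (coords K y) L :=
        (IntermediateField.inclusion h2).toRingHom
      refine ⟨p.map f, ?_, ?_⟩
      · rw [Ne, Polynomial.map_eq_zero_iff f.injective]
        exact hp
      · rw [Polynomial.aeval_def, Polynomial.eval₂_map]
        rw [Polynomial.aeval_def] at hpz
        exact hpz
    exact Algebra.IsAlgebraic.trans (coords K y) (algebraicClosure (coords K y) L) L
  -- orders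
  have hordy : ∀ (P : Place K L) b, fv t x b ≠ 0 →
      P.ord (y b) = (∏ b', d b' : ℕ) * mord P x + eb d b * (P.ord (fv t x b) - d b * mord P x) := by
    intro P b hb
    rw [hy]
    simp only
    rw [P.ord_pow, ← eb_mul d b]
    push_cast
    ring
  obtain ⟨b, hb⟩ := Run7.h34.UG.weights (n := r) (F := F) (d := D)
    (fun e => ⟨_, (hFd e).choose_spec.2⟩)
    (fun e => ((hFd e).choose_spec.2.totalDegree_le).trans (hFd e).choose_spec.1) hw htr hyn hgen
    (fun e => hFx y himg e) (Bd := Bd) (fun P hP i j hi hj hij => by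
      have hi' := fun h0 => hi ((hy0 i).2 h0)
      have hj' := fun h0 => hj ((hy0 j).2 h0)
      obtain ⟨b', hb', hb2⟩ := hram P hP (by
        by_contra hcon
        push Not at hcon
        apply hij
        rw [hordy P i hi', hordy P j hj', hcon i hi', hcon j hj']
        ring)
      obtain ⟨-, b'', hb'', hb3⟩ := h.ord hVh hx hV P
      refine ⟨b', b'', fun h0 => hb' ((hy0 b').1 h0), fun h0 => hb'' ((hy0 b'').1 h0), ?_⟩
      rw [hordy P b' hb', hordy P b'' hb'', hb3]
      have h4 : (1 : ℤ) ≤ eb d b' := by exact_mod_cast eb_pos hd b'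
      have h5 : ((Run7.h34.UG.mm r D : ℕ) : ℤ) ≤ P.ord (fv t x b') - d b' * mord P x := by
        linarith
      have h6 : (0 : ℤ) ≤ Run7.h34.UG.mm r D := by positivity
      nlinarith) hgt
  exact nospec h hd hF hb.1 hb.2

end Pool.Agent.Run7.h789.RC
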