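import Pool.Agent.Run7.h789.RC.Hgt
import Pool.Agent.Run7.h789.RC.Sp
import Mathlib.RingTheory.AlgebraicIndependent.AlgebraicClosure
import Pool.Agent.W603.LV.Root

/-!
# Heights and quasi-finite maps
-/

set_option autoImplicit false

open MvPolynomial FF

namespace Pool.Agent.Run7.h789.RC

open Pool.Agent.W603.LV Pool.Agent.W603.PV
open Pool.Agent.W602.GT (coords)
open Pool.Agent.Run7.h789.FV (hgt_le_mht mht_nonneg mht_le)

variable {N M : ℕ} {K : Type} [Field K]

/-- points of the subset of the product of two projective spaces -/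
def Pt {L : Type} [Field L] [Algebra K L] (X : Set (MvPolynomial (Fin (N + 1) ⊕ Fin (M + 1)) K))
    (a : Fin (N + 1) → L) (x : Fin (M + 1) → L) : Prop :=
  a ≠ 0 ∧ x ≠ 0 ∧ ∀ G ∈ X, aeval (Sum.elim a x) G = 0

/-- a relation with polynomial coefficients -/
theorem exists_rel' {Z : Type} [Field Z] [Algebra K Z] {x : Fin (M + 1) → Z} {j₀ : Fin (M + 1)}
    (hj₀ : x j₀ ≠ 0) {z : Z} (hz : IsAlgebraic (coords K x) z) :
    ∃ (D : ℕ) (c : ℕ → MvPolynomial (Fin (M + 1)) K),
      ∑ l ∈ Finset.range (D + 1), aeval (fun j => x j / x j₀) (c l) * z ^ l = 0 ∧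
      aeval (fun j => x j / x j₀) (c D) ≠ 0 := by
  classical
  have h1 : coords K x ≤ IntermediateField.adjoin K (Set.range fun j => x j / x j₀) := by
    unfold coords
    rw [IntermediateField.adjoin_le_iff]
    rintro _ ⟨i, j, hj, rfl⟩
    have e : x i / x j = (x i / x j₀) / (x j / x j₀) := by
      field_simp
    rw [e]
    exact div_mem (IntermediateField.subset_adjoin K _ ⟨i, rfl⟩)
      (IntermediateField.subset_adjoin K _ ⟨j, rfl⟩)
  have h2 : IsAlgebraic (IntermediateField.adjoin K (Set.range fun j => x j / x j₀)) z := by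
    obtain ⟨p, hp, hpz⟩ := hz
    let f := (IntermediateField.inclusion h1).toRingHom
    refine ⟨p.map f, ?_, ?_⟩
    · rw [Ne, Polynomial.map_eq_zero_iff f.injective]
      exact hp
    · rw [Polynomial.aeval_def, Polynomial.eval₂_map]
      rw [Polynomial.aeval_def] at hpz
      exact hpz
  have h3 : IsAlgebraic (Algebra.adjoin K (Set.range fun j => x j / x j₀)) z :=
    IntermediateField.isAlgebraic_adjoin_iff.1 h2
  obtain ⟨p, hp0, hp⟩ := h3
  have hco : ∀ s : ℕ, ∃ P : MvPolynomial (Fin (M + 1)) K,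
      aeval (fun j => x j / x j₀) P = ((p.coeff s : Algebra.adjoin K _) : Z) := by
    intro s
    have h0 := (p.coeff s).2
    exact (SetLike.ext_iff.1 (Algebra.adjoin_range_eq_range_aeval K
      (fun j => x j / x j₀)) _).1 h0
  choose P hP using hco
  refine ⟨p.natDegree, P, ?_, ?_⟩
  · rw [Polynomial.aeval_eq_sum_range] at hp
    rw [← hp]
    refine Finset.sum_congr rfl fun l _ => ?_
    rw [hP, Algebra.smul_def]
    rfl
  · rw [hP]
    have h4 : p.coeff p.natDegree ≠ 0 := fun h => hp0 (Polynomial.leadingCoeff_eq_zero.1 h)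
    exact fun h => h4 (Subtype.ext h)

/-- the height of a point of a relation -/
theorem rel_hgt {L : Type} [Field L] [Algebra K L] [IsAlgClosed K] [CharZero K] [IsFF K L]
    {x : Fin (M + 1) → L} {j₀ : Fin (M + 1)} (hj₀ : x j₀ ≠ 0) {z : L} {D : ℕ}
    {c : ℕ → MvPolynomial (Fin (M + 1)) K}
    (h : ∑ l ∈ Finset.range (D + 1), aeval (fun j => x j / x j₀) (c l) * z ^ l = 0)
    (h0 : aeval (fun j => x j / x j₀) (c D) ≠ 0) :
    hgt K z ≤ (∑ l ∈ Finset.range (D + 1), (c l).totalDegree * (M + 1) : ℕ) * pht K x := by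
  have h1 : ∀ l, hgt K (aeval (fun j => x j / x j₀) (c l)) ≤
      ((c l).totalDegree * (M + 1) : ℕ) * pht K x := by
    intro l
    refine (hgt_mvpoly (k := K) (fun j => x j / x j₀) (c l)).trans ?_
    have h2 : ∑ a, hgt K (x a / x j₀) ≤ (M + 1 : ℕ) * pht K x := by
      calc ∑ a, hgt K (x a / x j₀) ≤ ∑ _a : Fin (M + 1), pht K x :=
            Finset.sum_le_sum fun a _ => hgt_le_mht x hj₀ a
        _ = _ := by rw [Finset.sum_const, Finset.card_univ, Fintype.card_fin, nsmul_eq_mul]
    calc ((c l).totalDegree : ℤ) * ∑ a, hgt K (x a / x j₀)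
        ≤ (c l).totalDegree * ((M + 1 : ℕ) * pht K x) :=
          mul_le_mul_of_nonneg_left h2 (Int.natCast_nonneg _)
      _ = _ := by push_cast; ring
  refine (hgt_root (k := K) (fun l => aeval (fun j => x j / x j₀) (c l)) h0 z h).trans ?_
  have h3 : hgt K (aeval (fun j => x j / x j₀) (c D)) +
      ∑ d ∈ Finset.range D, hgt K (aeval (fun j => x j / x j₀) (c d)) =
      ∑ d ∈ Finset.range (D + 1), hgt K (aeval (fun j => x j / x j₀) (c d)) := by
    rw [Finset.sum_range_succ, add_comm]
  rw [h3]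
  refine (Finset.sum_le_sum fun l _ => h1 l).trans ?_
  rw [← Finset.sum_mul]
  refine le_of_eq ?_
  congr 1
  push_cast
  rfl

/-- **Compactness.** The heights of the points of a set which is quasi-finite over the second factor
are bounded by the heights of the second components. -/
theorem qf_hgt [IsAlgClosed K] [CharZero K]
    {X : Set (MvPolynomial (Fin (N + 1) ⊕ Fin (M + 1)) K)}
    (hX : ∀ (L : Type) [Field L] [Algebra K L] (a : Fin (N + 1) → L) (x : Fin (M + 1) → L),
      Pt X a x → ∀ i j, IsAlgebraic (coords K x) (a i / a j)) :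
    ∃ C : ℕ, ∀ (L : Type) [Field L] [Algebra K L] [IsFF K L] (a : Fin (N + 1) → L)
      (x : Fin (M + 1) → L), Pt X a x → pht K a ≤ C * pht K x := by
  classical
  by_contra hcon
  push Not at hcon
  choose L fL aL iL a x hpt hlt using hcon
  let R := (n : ℕ) → L n
  -- the ideal of the sequences which are zero almost everywhere
  let I : Ideal R :=
    { carrier := {f | ∃ n₀, ∀ n, n₀ ≤ n → f n = 0}
      add_mem' := by
        rintro f g ⟨n₁, h1⟩ ⟨n₂, h2⟩
        refine ⟨max n₁ n₂, fun n hn => ?_⟩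
        rw [Pi.add_apply, h1 n (le_trans (le_max_left _ _) hn),
          h2 n (le_trans (le_max_right _ _) hn), add_zero]
      zero_mem' := ⟨0, fun n _ => rfl⟩
      smul_mem' := by
        rintro c f ⟨n₁, h1⟩
        refine ⟨n₁, fun n hn => ?_⟩
        rw [smul_eq_mul, Pi.mul_apply, h1 n hn, mul_zero] }
  have hI : I ≠ ⊤ := by
    intro h
    have h1 : (1 : R) ∈ I := by rw [h]; trivial
    obtain ⟨n₀, hn⟩ := h1
    exact one_ne_zero (hn n₀ le_rfl)
  obtain ⟨m, hm, hIm⟩ := Ideal.exists_le_maximal I hI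
  let _ : Field (R ⧸ m) := Ideal.Quotient.field m
  let φ : R →ₐ[K] (R ⧸ m) := Ideal.Quotient.mkₐ K m
  -- transfer
  have key : ∀ (F : Finset R) (g : R), (∀ f ∈ F, φ f = 0) → φ g ≠ 0 → ∀ n₀, ∃ n, n₀ ≤ n ∧
      (∀ f ∈ F, f n = 0) ∧ g n ≠ 0 := by
    intro F g hF hg n₀
    by_contra hno
    push Not at hno
    apply hg
    have hmem : ∀ f : R, φ f = 0 ↔ f ∈ m := fun f => Ideal.Quotient.eq_zero_iff_mem
    -- the idempotents
    have h1 : ∀ f ∈ F, ∃ u : R, ∀ n, u n * f n = if f n = 0 then 0 else 1 := by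
      intro f _
      refine ⟨fun n => (f n)⁻¹, fun n => ?_⟩
      split_ifs with h
      · rw [h, mul_zero]
      · exact inv_mul_cancel₀ h
    let p : R := fun n => ∏ f ∈ F, if f n = 0 then 1 else 0
    have h2 : φ p = 1 := by
      have h3 : p = ∏ f ∈ F, (1 - (fun n => (f n)⁻¹) * f) := by
        funext n
        rw [Finset.prod_apply]
        refine Finset.prod_congr rfl fun f _ => ?_
        rw [Pi.sub_apply, Pi.mul_apply, Pi.one_apply]
        split_ifs with h
        · rw [h, mul_zero, sub_zero]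
        · rw [inv_mul_cancel₀ h, sub_self]
      rw [h3, map_prod]
      refine Finset.prod_eq_one fun f hf => ?_
      rw [map_sub, map_mul, hF f hf, mul_zero, sub_zero, map_one]
    have h3 : p * g ∈ I := by
      refine ⟨n₀, fun n hn => ?_⟩
      rw [Pi.mul_apply]
      by_cases h4 : ∀ f ∈ F, f n = 0
      · rw [hno n hn h4, mul_zero]
      · push Not at h4
        obtain ⟨f, hf, hfn⟩ := h4
        have : p n = 0 := Finset.prod_eq_zero hf (if_neg hfn)
        rw [this, zero_mul]
    have h4 : φ (p * g) = 0 := (hmem _).2 (hIm h3)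
    rwa [map_mul, h2, one_mul] at h4
  -- the limit point
  let A : Fin (N + 1) → R := fun i n => a n i
  let Y : Fin (M + 1) → R := fun j n => x n j
  have hPt : Pt X (fun i => φ (A i)) (fun j => φ (Y j)) := by
    refine ⟨?_, ?_, ?_⟩
    · intro h0
      obtain ⟨n, -, h1, -⟩ := key (Finset.univ.image A) 1 (by
        intro f hf
        obtain ⟨i, -, rfl⟩ := Finset.mem_image.1 hf
        exact congrFun h0 i) (by rw [map_one]; exact one_ne_zero) 0
      exact (hpt n).1 (funext fun i => h1 (A i) (Finset.mem_image_of_mem _ (Finset.mem_univ i)))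
    · intro h0
      obtain ⟨n, -, h1, -⟩ := key (Finset.univ.image Y) 1 (by
        intro f hf
        obtain ⟨i, -, rfl⟩ := Finset.mem_image.1 hf
        exact congrFun h0 i) (by rw [map_one]; exact one_ne_zero) 0
      exact (hpt n).2.1 (funext fun i => h1 (Y i) (Finset.mem_image_of_mem _ (Finset.mem_univ i)))
    · intro G hG
      have h1 : aeval (Sum.elim (fun i => φ (A i)) fun j => φ (Y j)) G =
          φ (aeval (Sum.elim A Y) G) := by
        rw [comp_aeval_apply]
        congr 2
        funext s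
        cases s <;> rfl
      have h2 : aeval (Sum.elim A Y) G = 0 := by
        funext n
        have h3 : (Pi.evalAlgHom K L n) (aeval (Sum.elim A Y) G) =
            aeval (Sum.elim (a n) (x n)) G := by
          rw [comp_aeval_apply]
          congr 2
          funext s
          cases s <;> rfl
        exact h3.trans ((hpt n).2.2 G hG)
      rw [h1, h2, map_zero]
  obtain ⟨i₀, hi₀'⟩ := Function.ne_iff.1 hPt.1
  obtain ⟨j₀, hj₀'⟩ := Function.ne_iff.1 hPt.2.1
  have hi₀ : φ (A i₀) ≠ 0 := hi₀'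
  have hj₀ : φ (Y j₀) ≠ 0 := hj₀'
  choose D c hc1 hc2 using fun i => exists_rel' (K := K) (x := fun j => φ (Y j)) (j₀ := j₀) hj₀
    (hX _ _ _ hPt i i₀)
  -- the elements of the product
  let r : Fin (M + 1) → R := fun j n => x n j / x n j₀
  let z : Fin (N + 1) → R := fun i n => a n i / a n i₀
  have hdiv : ∀ (f g : R), φ g ≠ 0 → φ (fun n => f n / g n) = φ f / φ g := by
    intro f g hg
    rw [eq_div_iff hg, ← map_mul, ← sub_eq_zero, ← map_sub]
    by_contra h1
    obtain ⟨n, -, -, h2⟩ := key ∅ (((fun n => f n / g n) * g - f) * g) (by simp)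
      (by rw [map_mul]; exact mul_ne_zero h1 hg) 0
    apply h2
    rw [Pi.mul_apply, Pi.sub_apply, Pi.mul_apply]
    by_cases h3 : g n = 0
    · rw [h3, mul_zero]
    · rw [div_mul_cancel₀ _ h3, sub_self, zero_mul]
  have hr : ∀ j, φ (r j) = φ (Y j) / φ (Y j₀) := fun j => hdiv _ _ hj₀
  have hz : ∀ i, φ (z i) = φ (A i) / φ (A i₀) := fun i => hdiv _ _ hi₀
  have hrP : ∀ P : MvPolynomial (Fin (M + 1)) K,
      φ (aeval r P) = aeval (fun j => φ (Y j) / φ (Y j₀)) P := by
    intro P
    rw [comp_aeval_apply]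
    congr 2
    funext j
    exact hr j
  have hrn : ∀ (P : MvPolynomial (Fin (M + 1)) K) n,
      (aeval r P) n = aeval (fun j => x n j / x n j₀) P := by
    intro P n
    have h3 : (Pi.evalAlgHom K L n) (aeval r P) = aeval (fun j => x n j / x n j₀) P := by
      rw [comp_aeval_apply]
      rfl
    exact h3
  let C : Fin (N + 1) → ℕ := fun i => ∑ l ∈ Finset.range (D i + 1), (c i l).totalDegree * (M + 1)
  obtain ⟨n, hn, h1, h2⟩ := key
    (Finset.univ.image fun i => ∑ l ∈ Finset.range (D i + 1), aeval r (c i l) * z i ^ l)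
    (Y j₀ * A i₀ * ∏ i, aeval r (c i (D i))) (by
      intro f hf
      obtain ⟨i, -, rfl⟩ := Finset.mem_image.1 hf
      rw [map_sum, ← hc1 i]
      refine Finset.sum_congr rfl fun l _ => ?_
      rw [map_mul, map_pow, hrP, hz]) (by
      rw [map_mul, map_mul, map_prod]
      refine mul_ne_zero (mul_ne_zero hj₀ hi₀) (Finset.prod_ne_zero_iff.2 fun i _ => ?_)
      rw [hrP]
      exact hc2 i) (∑ i, C i)
  rw [Pi.mul_apply, Pi.mul_apply, Finset.prod_apply, mul_ne_zero_iff, mul_ne_zero_iff,
    Finset.prod_ne_zero_iff] at h2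
  obtain ⟨⟨hxn, han⟩, hcn⟩ := h2
  have h3 : ∀ i, hgt K (a n i / a n i₀) ≤ C i * pht K (x n) := by
    intro i
    refine rel_hgt (K := K) hxn (D := D i) (c := c i) ?_ ?_
    · have h4 := h1 _ (Finset.mem_image_of_mem _ (Finset.mem_univ i))
      rw [Finset.sum_apply] at h4
      rw [← h4]
      refine Finset.sum_congr rfl fun l _ => ?_
      rw [Pi.mul_apply, Pi.pow_apply, hrn]
    · have h4 := hcn i (Finset.mem_univ i)
      rwa [hrn] at h4
  have h4 : pht K (a n) ≤ (∑ i, C i : ℕ) * pht K (x n) := by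
    refine (mht_le (k := K) (a n) han).trans ((Finset.sum_le_sum fun i _ => h3 i).trans ?_)
    rw [← Finset.sum_mul]
    push_cast
    exact le_rfl
  have h5 : 0 ≤ pht K (x n) := mht_nonneg (k := K) ⟨j₀, hxn⟩
  have h6 := hlt n
  have h7 : ((∑ i, C i : ℕ) : ℤ) ≤ n := by exact_mod_cast hn
  nlinarith

end Pool.Agent.Run7.h789.RC
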