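import Pool.Agent.Run7.h34.UG.Main
import Pool.Agent.Run7.h789.RC.Sp

/-!
# Holomorphic maps to covers which are highly ramified over good hypersurfaces
-/

set_option autoImplicit false
set_option synthInstance.maxHeartbeats 400000

open MvPolynomial Metric Filter Topology

namespace Pool.Agent.Run7.h789.RC

open Pool.Agent.NH29.GN (Idx Mon fv)
open Pool.Agent.W602.Cov Pool.Agent.W602.Cov.Cover Pool.Agent.W602.Cov.R Pool.Agent.W603.BP
open Pool.Agent.W601.PH Pool.Agent.TH152.HY

/-- The variety `X - D` is ramified to order at least `m` over the hypersurfaces: if a point of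
`X` over a field with a discrete valuation with centre in `X - D` has contact with some of the
hypersurfaces which do not contain it, then it has contact of order at least `m` with one of
them. -/
def Ram {N M q : ℕ} (X D : BiSet N M) {d : Fin q → ℕ} (t : Idx M d → ℂ) (m : ℕ) : Prop :=
  ∀ (L : Type) [Field L] [Algebra ℂ L] (a : Fin (N + 1) → L) (x : Fin (M + 1) → L), X.Mem a x →
    ∀ P : FF.Place ℂ L, ¬ CentreIn D a x P → ∀ c : ℤ, Norm P x c →
    (∃ b, fv t x b ≠ 0 ∧ P.ord (fv t x b) ≠ d b * c) →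
    ∃ b, fv t x b ≠ 0 ∧ d b * c + m ≤ P.ord (fv t x b)

variable {N M r : ℕ}

theorem fv_cplx {q : ℕ} {d : Fin q → ℕ} (t : Idx M d → ℂ) (x : Fin (M + 1) → ℂ) (b : Fin q) :
    fv t x b = ∑ β : Mon M (d b), t ⟨b, β⟩ * ∏ i, x i ^ β.1 i := rfl

theorem fv_an {q : ℕ} {d : Fin q → ℕ} (t : Idx M d → ℂ) {v : ℂ → Fin (M + 1) → ℂ} {z : ℂ}
    (hv : ∀ j, AnalyticAt ℂ (fun z => v z j) z) (b : Fin q) :
    AnalyticAt ℂ (fun z => fv t (v z) b) z := by
  simp only [fv_cplx]
  refine Finset.analyticAt_fun_sum _ fun β _ => ?_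
  refine analyticAt_const.fun_mul ?_
  exact Finset.analyticAt_fun_prod _ fun i _ => (hv i).fun_pow _

/-- the multiplicities of holomorphic maps from the punctured disc -/
theorem dm {q : ℕ} {d : Fin q → ℕ} {t : Idx M d → ℂ} {X D : BiSet N M} {m : ℕ}
    (hram : Ram X D t m) {u : ℂ → Fin (N + 1) → ℂ} {v : ℂ → Fin (M + 1) → ℂ}
    (huv : QDisc X D u v) {z0 : ℂ} (hz0 : z0 ∈ PB 1)
    (hb : ∃ b, (∃ z ∈ PB 1, fv t (v z) b ≠ 0) ∧ fv t (v z0) b = 0) :
    ∃ b, (∃ z ∈ PB 1, fv t (v z) b ≠ 0) ∧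
      (m : ℕ∞) ≤ analyticOrderAt (fun z => fv t (v z) b) z0 := by
  have hopen : IsOpen (PB 1) := PB_open 1
  have hu := fun j => an_of_diffOn huv.diffu j
  have hv := fun j => an_of_diffOn huv.diffv j
  have hmemz : ∀ z ∈ PB 1, QMem X D (u z) (v z) := fun z hz => huv.mem z (mem_disc.mpr hz)
  obtain ⟨L, _, _, P, T, hT, hord⟩ := point_place hopen (PB_preconn one_pos) hz0
  have hTne : ∀ f : Aly (PB 1), f ≠ 0 → T f ≠ 0 := by
    intro f hf h0
    apply hf
    apply hT
    rw [h0, map_zero]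
  have hℓan : ∀ b, AnalyticOnNhd ℂ (fun z => fv t (v z) b) (PB 1) := fun b z hz =>
    fv_an t (fun j => hv j z hz) b
  let U : Fin (N + 1) → Aly (PB 1) := fun j => mk (fun z => u z j) (hu j)
  let W : Fin (M + 1) → Aly (PB 1) := fun j => mk (fun z => v z j) (hv j)
  let F : Fin q → Aly (PB 1) := fun b => mk (fun z => fv t (v z) b) (hℓan b)
  have hext : ∀ f g : Aly (PB 1), (∀ z : PB 1, evs z f = evs z g) → f = g :=
    fun f g h => Subtype.ext (funext h)
  have hrep : ∀ (f : ℂ → ℂ) (hf : AnalyticOnNhd ℂ f (PB 1)),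
      analyticOrderAt (rep (PB 1) (mk f hf)) z0 = analyticOrderAt f z0 := by
    intro f hf
    refine analyticOrderAt_congr ?_
    filter_upwards [hopen.mem_nhds hz0] with z hz
    exact rep_mk f hf z hz
  have hF : ∀ b, fv t (fun j => T (W j)) b = T (F b) := by
    intro b
    have h4 : F b = ∑ β : Mon M (d b), algebraMap ℂ (Aly (PB 1)) (t ⟨b, β⟩) *
        ∏ i, W i ^ β.1 i := by
      apply hext
      intro z
      rw [map_sum]
      simp only [map_mul, map_prod, map_pow, AlgHom.commutes]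
      exact fv_cplx t (v z) b
    rw [h4, map_sum]
    unfold fv
    refine Finset.sum_congr rfl fun β _ => ?_
    rw [map_mul, AlgHom.commutes, map_prod]
    congr 1
    exact Finset.prod_congr rfl fun i _ => (map_pow T (W i) _).symm
  have hFne : ∀ b, F b ≠ 0 ↔ ∃ z ∈ PB 1, fv t (v z) b ≠ 0 := by
    intro b
    constructor
    · intro h
      by_contra hcon
      push Not at hcon
      apply h
      apply hext
      intro z
      rw [map_zero]
      exact hcon z z.2
    · rintro ⟨z, hz, hne⟩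
      exact mk_ne (hℓan b) hz hne
  -- polynomials
  have hpoly : ∀ G : BiPoly N M, ∀ z : PB 1,
      evs z (aeval (Sum.elim U W) G) = eval (Sum.elim (u z) (v z)) G := by
    intro G z
    have h7 : evs z (aeval (Sum.elim U W) G) = aeval (fun s => evs z (Sum.elim U W s)) G := by
      rw [← AlgHom.comp_apply, comp_aeval]
    rw [h7]
    have h8 : (fun s => evs z (Sum.elim U W s)) = Sum.elim (u z) (v z) := by
      funext s
      rcases s with s | s <;> rfl
    rw [h8]
    rfl
  have hTpoly : ∀ G : BiPoly N M, aeval (Sum.elim (fun j => T (U j)) (fun j => T (W j))) G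
      = T (aeval (Sum.elim U W) G) := by
    intro G
    rw [← AlgHom.comp_apply, comp_aeval]
    congr 2
    funext s
    rcases s with s | s <;> rfl
  have hmem : X.Mem (fun j => T (U j)) (fun j => T (W j)) := by
    obtain ⟨⟨ha, hb, _⟩, _⟩ := hmemz z0 hz0
    refine ⟨?_, ?_, ?_⟩
    · intro h0
      apply ha
      funext j
      by_contra hj
      exact hTne (U j) (mk_ne (hu j) hz0 hj) (congrFun h0 j)
    · intro h0
      apply hb
      funext j
      by_contra hj
      exact hTne (W j) (mk_ne (hv j) hz0 hj) (congrFun h0 j)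
    · intro G hG
      have h5 : aeval (Sum.elim U W) G = (0 : Aly (PB 1)) := by
        apply hext
        intro z
        rw [map_zero, hpoly]
        exact (hmemz z z.2).1.2.2 G hG
      rw [hTpoly, h5, map_zero]
  have horder0 : ∀ (f : ℂ → ℂ) (hf : AnalyticOnNhd ℂ f (PB 1)), f z0 ≠ 0 →
      P.ord (T (mk f hf)) = 0 := by
    intro f hf hne
    rw [(hord _ (mk_ne hf hz0 hne)).2, hrep f hf, (hf z0 hz0).analyticOrderAt_eq_zero.mpr hne]
    rfl
  have hnonneg : ∀ f : Aly (PB 1), f ≠ 0 → 0 ≤ P.ord (T f) := by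
    intro f hf
    rw [(hord _ hf).2]
    exact Int.natCast_nonneg _
  have hn0 : ∀ {k : ℕ} (x : ℂ → Fin k → ℂ) (hx : ∀ j, AnalyticOnNhd ℂ (fun z => x z j) (PB 1)),
      x z0 ≠ 0 → Norm P (fun j => T (mk (fun z => x z j) (hx j))) 0 := by
    intro k x hx h0
    refine ⟨fun j hj => hnonneg _ fun h1 => hj (by
      show T (mk (fun z => x z j) (hx j)) = 0
      rw [h1, map_zero]), ?_⟩
    obtain ⟨j, hj⟩ := Function.ne_iff.mp h0
    exact ⟨j, hTne _ (mk_ne (hx j) hz0 hj), horder0 _ (hx j) hj⟩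
  have hNa : Norm P (fun j => T (U j)) 0 := hn0 u hu (hmemz z0 hz0).1.1
  have hNb : Norm P (fun j => T (W j)) 0 := hn0 v hv (hmemz z0 hz0).1.2.1
  obtain ⟨b, hb1, hb2⟩ := hb
  obtain ⟨b', hb1', hb2'⟩ := hram L (fun j => T (U j)) (fun j => T (W j)) hmem P (by
      intro hcen
      apply (hmemz z0 hz0).2
      refine ⟨(hmemz z0 hz0).1.1, (hmemz z0 hz0).1.2.1, fun G hG => ?_⟩
      obtain ⟨E, E', hE⟩ := D.hom G hG
      by_contra hne
      have hne' : evs ⟨z0, hz0⟩ (aeval (Sum.elim U W) G) ≠ 0 := by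
        rw [hpoly]
        exact hne
      have hG0 : aeval (Sum.elim U W) G ≠ 0 := by
        intro h0
        rw [h0, map_zero] at hne'
        exact hne' rfl
      rcases hcen 0 0 hNa hNb G hG E E' hE with h1 | h1
      · rw [hTpoly] at h1
        exact hTne _ hG0 h1
      · rw [hTpoly, (hord _ hG0).2] at h1
        have h2 : analyticOrderAt (rep (PB 1) (aeval (Sum.elim U W) G)) z0 = 0 := by
          rw [(rep_an _ z0 hz0).analyticOrderAt_eq_zero, ← rep_eq _ ⟨z0, hz0⟩]
          exact hne'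
        rw [h2] at h1
        simp at h1) 0 hNb (by
      refine ⟨b, ?_, ?_⟩
      · rw [hF]
        exact hTne _ ((hFne b).2 hb1)
      · rw [hF, (hord _ ((hFne b).2 hb1)).2, mul_zero]
        intro h0
        have h1 := hord _ ((hFne b).2 hb1)
        have h2 : analyticOrderAt (rep (PB 1) (F b)) z0 = 0 := by
          rw [← ENat.natCast_toNat h1.1]
          have h3 : (analyticOrderAt (rep (PB 1) (F b)) z0).toNat = 0 := by exact_mod_cast h0
          rw [h3]
          rfl
        have h3 : analyticOrderAt (fun z => fv t (v z) b) z0 = 0 := by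
          rw [← h2]
          exact (hrep _ (hℓan b)).symm
        exact ((hℓan b z0 hz0).analyticOrderAt_eq_zero.1 h3) hb2)
  rw [hF] at hb1' hb2'
  have hFb' : F b' ≠ 0 := fun h0 => hb1' (by rw [h0, map_zero])
  refine ⟨b', (hFne b').1 hFb', ?_⟩
  have h1 := hord _ hFb'
  rw [h1.2] at hb2'
  have h2 : analyticOrderAt (fun z => fv t (v z) b') z0 =
      analyticOrderAt (rep (PB 1) (F b')) z0 := (hrep _ (hℓan b')).symm
  rw [h2, ← ENat.natCast_toNat h1.1]
  have h3 : m ≤ (analyticOrderAt (rep (PB 1) (F b')) z0).toNat := by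
    rw [mul_zero, zero_add] at hb2'
    exact_mod_cast hb2'
  exact_mod_cast h3

end Pool.Agent.Run7.h789.RC
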