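import Pool.Agent.Run7.h789.RC.Sp

/-!
# Finite fibres
-/

set_option autoImplicit false
set_option synthInstance.maxHeartbeats 400000

open MvPolynomial Filter

namespace Pool.Agent.Run7.h789.RC

open Pool.Agent.NH29.GN (Idx Mon fv val)
open scoped LinearAlgebra.Projectivization

variable {M r : ℕ} {k₀ : Type} [Field k₀] [Algebra k₀ ℂ]
  {V : Set (MvPolynomial (Fin (M + 1)) k₀)} {d : Fin (r + 1) → ℕ} {t : Idx M d → ℂ}

/-- the ultrapower of the complex numbers -/
abbrev Zg : Type := Germ (hyperfilter ℕ : Filter ℕ) ℂ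

theorem hyp_inf {p : ℕ → Prop} (h : ∀ᶠ n in (hyperfilter ℕ : Filter ℕ), p n) :
    ∃ n m, n ≠ m ∧ p n ∧ p m := by
  obtain ⟨n, hn⟩ := h.exists
  have h1 : ∀ᶠ m in (hyperfilter ℕ : Filter ℕ), m ≠ n := by
    have h2 : ∀ᶠ m in (cofinite : Filter ℕ), m ≠ n := by
      rw [eventually_cofinite]
      simp
    exact hyperfilter_le_cofinite h2
  obtain ⟨m, hm1, hm2⟩ := (h.and h1).exists
  exact ⟨n, m, hm2.symm, hn, hm1⟩

theorem fib_fin (h : Good V t) (hd : ∀ i, 1 ≤ d i) (y0 : Fin (r + 1) → ℂ) (hy0 : y0 ≠ 0) :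
    ∃ T : Finset (Fin (M + 1) → ℂ), ∀ x : Fin (M + 1) → ℂ, x ≠ 0 → OnV (K := ℂ) V x →
      Img t x y0 → ∃ s ∈ T, ∃ c : ℂ, x = c • s := by
  classical
  by_contra hcon
  push Not at hcon
  -- a sequence of points which are pairwise not proportional
  choose f hf0 hfV hfI hf using hcon
  let g : ℕ → Finset (Fin (M + 1) → ℂ) := fun n => Nat.rec ∅ (fun _ T => insert (f T) T) n
  let x : ℕ → Fin (M + 1) → ℂ := fun n => f (g n)
  have hgs : ∀ n, g (n + 1) = insert (x n) (g n) := fun n => rfl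
  have hmem : ∀ m n, m < n → x m ∈ g n := by
    intro m n hmn
    induction n with
    | zero => omega
    | succ n ih =>
      rw [hgs]
      rcases Nat.lt_succ_iff_lt_or_eq.1 hmn with h1 | h1
      · exact Finset.mem_insert_of_mem (ih h1)
      · rw [h1]
        exact Finset.mem_insert_self _ _
  have hx0 : ∀ n, x n ≠ 0 := fun n => hf0 _
  have hxp : ∀ m n, m < n → ∀ c : ℂ, x n ≠ c • x m := fun m n hmn c => hf (g n) (x m) (hmem m n hmn) c
  let φ : (ℕ → ℂ) →+* Zg := Germ.coeRingHom _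
  let _ : Algebra ℂ Zg := (φ.comp (Pi.constRingHom ℕ ℂ)).toAlgebra
  have hC : ∀ c : ℂ, algebraMap ℂ Zg c = φ (fun _ => c) := fun c => rfl
  let ξ : Fin (M + 1) → Zg := fun a => φ fun n => x n a
  have hξV : OnV (K := ℂ) V ξ := by
    intro H hH
    let f0 : k₀ →+* (ℕ → ℂ) := (Pi.constRingHom ℕ ℂ).comp (algebraMap k₀ ℂ)
    have h1 : eval₂ ((algebraMap ℂ Zg).comp (algebraMap k₀ ℂ)) ξ H =
        φ (eval₂ f0 (fun a n => x n a) H) := by
      rw [hom_eval₂]
      rfl
    have h2 : eval₂ f0 (fun a n => x n a) H = 0 := by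
      funext n
      have h3 : (Pi.evalRingHom (fun _ : ℕ => ℂ) n) (eval₂ f0 (fun a n => x n a) H) =
          eval₂ ((algebraMap ℂ ℂ).comp (algebraMap k₀ ℂ)) (x n) H := by
        rw [hom_eval₂]
        rfl
      exact h3.trans (hfV _ H hH)
    rw [h1, h2, map_zero]
  have hfv : ∀ b, fv t ξ b = φ fun n => fv t (x n) b := by
    intro b
    have h1 : (fun n => fv t (x n) b) = ∑ β : Mon M (d b), (fun _ : ℕ => t ⟨b, β⟩) *
        ∏ i, (fun n => x n i) ^ β.1 i := by
      funext n
      unfold fv val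
      simp only [Finset.sum_apply, Pi.mul_apply, Finset.prod_apply, Pi.pow_apply]
      try rfl
    rw [h1, map_sum]
    unfold fv val
    refine Finset.sum_congr rfl fun β _ => ?_
    rw [map_mul, map_prod]
    congr 1
  have hξI : Img t ξ (fun i => algebraMap ℂ Zg (y0 i)) := by
    intro i j
    change algebraMap ℂ Zg (y0 i) * fv t ξ j ^ eb d j = algebraMap ℂ Zg (y0 j) * fv t ξ i ^ eb d i
    rw [hfv, hfv, hC, hC, ← map_pow, ← map_pow, ← map_mul, ← map_mul]
    congr 1
    funext n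
    exact hfI (g n) i j
  have hξ0 : ξ ≠ 0 := by
    intro h0
    have h1 : ∀ᶠ n in (hyperfilter ℕ : Filter ℕ), ∀ a, x n a = 0 := by
      rw [eventually_all]
      intro a
      have h2 : φ (fun n => x n a) = 0 := congrFun h0 a
      exact Germ.coe_eq.1 h2
    obtain ⟨n, hn⟩ := h1.exists
    exact hx0 n (funext hn)
  have hy0' : (fun i => algebraMap ℂ Zg (y0 i)) ≠ 0 := by
    intro h0
    apply hy0
    funext i
    exact (map_eq_zero (algebraMap ℂ Zg)).1 (congrFun h0 i)
  obtain ⟨a', ha'⟩ := Function.ne_iff.1 hξ0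
  have halg : ∀ a, ∃ c : ℂ, ξ a = algebraMap ℂ Zg c * ξ a' := by
    intro a
    have h1 := h.alg hd (⊥ : IntermediateField ℂ Zg) hξ0 hξV (fun b hb b' hb' => by
      have h2 := hξI b b'
      have hyb' : algebraMap ℂ Zg (y0 b') ≠ 0 := fun h0 =>
        hb' ((h.zero_iff hd hξ0 hξV hy0' hξI b').2 h0)
      rw [IntermediateField.mem_bot]
      refine ⟨y0 b / y0 b', ?_⟩
      rw [map_div₀, div_eq_div_iff hyb' (pow_ne_zero _ hb')]
      rw [h2, mul_comm]) a a' ha'
    have h2 : IsAlgebraic ℂ (ξ a / ξ a') := by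
      obtain ⟨p, hp, hpz⟩ := h1
      let e := IntermediateField.botEquiv ℂ Zg
      refine ⟨p.map (e : (⊥ : IntermediateField ℂ Zg) →+* ℂ), ?_, ?_⟩
      · rw [Ne, Polynomial.map_eq_zero_iff e.injective]
        exact hp
      · rw [Polynomial.aeval_def, Polynomial.eval₂_map]
        rw [Polynomial.aeval_def] at hpz
        have h3 : (algebraMap ℂ Zg).comp (e : (⊥ : IntermediateField ℂ Zg) →+* ℂ) =
            algebraMap (⊥ : IntermediateField ℂ Zg) Zg := by
          ext z
          obtain ⟨w, rfl⟩ := e.symm.surjective z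
          simp only [RingHom.comp_apply, RingHom.coe_coe, AlgEquiv.apply_symm_apply]
          have h4 : e.symm w = algebraMap ℂ (⊥ : IntermediateField ℂ Zg) w :=
            e.symm.commutes w
          rw [h4]
          rfl
        rw [h3]
        exact hpz
    have h3 : (minpoly ℂ (ξ a / ξ a')).degree = 1 :=
      IsAlgClosed.degree_eq_one_of_irreducible ℂ (minpoly.irreducible h2.isIntegral)
    obtain ⟨c, hc⟩ := minpoly.mem_range_of_degree_eq_one ℂ _ h3
    refine ⟨c, ?_⟩
    rw [hc, div_mul_cancel₀ _ ha']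
  choose c hc using halg
  have h1 : ∀ᶠ n in (hyperfilter ℕ : Filter ℕ), ∀ a, x n a = c a * x n a' := by
    rw [eventually_all]
    intro a
    have h2 := hc a
    rw [hC, ← map_mul] at h2
    exact Germ.coe_eq.1 h2
  have key : ∀ m n, m < n → (∀ a, x n a = c a * x n a') → (∀ a, x m a = c a * x m a') → False := by
    intro m n hmn h2 h3
    have h4 : x m a' ≠ 0 := by
      intro h0
      exact hx0 m (funext fun a => by rw [h3 a, h0, mul_zero]; rfl)
    apply hxp m n hmn (x n a' / x m a')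
    funext a
    rw [Pi.smul_apply, smul_eq_mul, h2 a, h3 a]
    field_simp
  obtain ⟨n, m, hnm, hn, hm⟩ := hyp_inf h1
  rcases lt_or_gt_of_ne hnm with h2 | h2
  · exact key n m h2 hm hn
  · exact key m n h2 hn hm

end Pool.Agent.Run7.h789.RC
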