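import Pool.Agent.Run7.h789.RC.Dm
import Pool.Agent.Run7.h789.RC.Ff

/-!
# Extension of holomorphic maps
-/

set_option autoImplicit false
set_option synthInstance.maxHeartbeats 400000

open MvPolynomial Metric Filter Topology

namespace Pool.Agent.Run7.h789.RC

open Pool.Agent.NH29.GN (Idx Mon fv)
open Pool.Agent.W602.Cov Pool.Agent.W602.Cov.Cover Pool.Agent.W602.Cov.R Pool.Agent.W603.BP
open Pool.Agent.W601.PH Pool.Agent.TH152.HY

variable {N M r : ℕ} {k₀ : Type} [Field k₀] [Algebra k₀ ℂ]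
  {V : Set (MvPolynomial (Fin (M + 1)) k₀)} {d : Fin (r + 1) → ℕ} {t : Idx M d → ℂ}

/-- the form with the coefficients `t` -/
noncomputable def frm (t : Idx M d → ℂ) (b : Fin (r + 1)) : MvPolynomial (Fin (M + 1)) ℂ :=
  ∑ β : Mon M (d b), monomial β.1 (t ⟨b, β⟩)

theorem frm_hom (t : Idx M d → ℂ) (b : Fin (r + 1)) : (frm t b).IsHomogeneous (d b) :=
  IsHomogeneous.sum _ _ _ fun β _ => isHomogeneous_monomial _ β.2

theorem frm_eval (t : Idx M d → ℂ) (x : Fin (M + 1) → ℂ) (b : Fin (r + 1)) :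
    eval x (frm t b) = fv t x b := by
  unfold frm
  rw [map_sum, fv_cplx]
  refine Finset.sum_congr rfl fun β _ => ?_
  rw [eval_monomial, Finsupp.prod_fintype]
  intro i
  exact pow_zero _

theorem eval_smul' {P : MvPolynomial (Fin (M + 1)) ℂ} {e : ℕ} (hP : P.IsHomogeneous e) (s : ℂ)
    (x : Fin (M + 1) → ℂ) : eval (s • x) P = s ^ e * eval x P := by
  have := Pool.Agent.NH29.GN.Ncz.aeval_smul hP s x
  exact this

/-- the graph of the map given by the forms -/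
noncomputable def gr (hVh : ∀ H ∈ V, ∃ e, H.IsHomogeneous e) (t : Idx M d → ℂ) :
    Pool.Agent.W601.SM.BiSet M r where
  I := {G | (∃ H ∈ V, G = rename Sum.inl (map (algebraMap k₀ ℂ) H)) ∨
    ∃ i j : Fin (r + 1), G = X (Sum.inr i) * rename Sum.inl (frm t j ^ eb d j) -
      X (Sum.inr j) * rename Sum.inl (frm t i ^ eb d i)}
  hom := by
    rintro G (⟨H, hH, rfl⟩ | ⟨i, j, rfl⟩)
    · obtain ⟨e, he⟩ := hVh H hH
      refine ⟨e, 0, fun s t u v => ?_⟩
      unfold Pool.Agent.W601.SM.ev2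
      rw [eval_rename, eval_rename, Sum.elim_comp_inl, Sum.elim_comp_inl, eval_smul' (he.map _),
        pow_zero, mul_one]
    · refine ⟨∏ b, d b, 1, fun s s' u v => ?_⟩
      unfold Pool.Agent.W601.SM.ev2
      simp only [map_sub, map_mul, eval_X, eval_rename, Sum.elim_comp_inl, Sum.elim_inr, map_pow,
        eval_smul' (frm_hom t _), mul_pow, ← pow_mul, eb_mul, Pi.smul_apply, smul_eq_mul, pow_one]
      ring

theorem gr_mem (hVh : ∀ H ∈ V, ∃ e, H.IsHomogeneous e) {x : Fin (M + 1) → ℂ}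
    {y : Fin (r + 1) → ℂ} : (gr hVh t).Mem x y ↔
      x ≠ 0 ∧ y ≠ 0 ∧ OnV (K := ℂ) V x ∧ Img t x y := by
  have h1 : ∀ H : MvPolynomial (Fin (M + 1)) k₀, Pool.Agent.W601.SM.ev2 x y
      (rename Sum.inl (map (algebraMap k₀ ℂ) H)) =
      eval₂ ((algebraMap ℂ ℂ).comp (algebraMap k₀ ℂ)) x H := by
    intro H
    unfold Pool.Agent.W601.SM.ev2
    rw [eval_rename, Sum.elim_comp_inl, eval_map]
    rfl
  have h2 : ∀ i j : Fin (r + 1), Pool.Agent.W601.SM.ev2 x y
      (X (Sum.inr i) * rename Sum.inl (frm t j ^ eb d j) -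
        X (Sum.inr j) * rename Sum.inl (frm t i ^ eb d i)) =
      y i * fv t x j ^ eb d j - y j * fv t x i ^ eb d i := by
    intro i j
    unfold Pool.Agent.W601.SM.ev2
    simp only [map_sub, map_mul, eval_X, eval_rename, Sum.elim_comp_inl, Sum.elim_inr, map_pow,
      frm_eval]
  constructor
  · rintro ⟨hx, hy, hI⟩
    refine ⟨hx, hy, fun H hH => ?_, fun i j => ?_⟩
    · rw [← h1]
      exact hI _ (Or.inl ⟨H, hH, rfl⟩)
    · rw [← sub_eq_zero, ← h2]
      exact hI _ (Or.inr ⟨i, j, rfl⟩)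
  · rintro ⟨hx, hy, hV, hI⟩
    refine ⟨hx, hy, ?_⟩
    rintro G (⟨H, hH, rfl⟩ | ⟨i, j, rfl⟩)
    · rw [h1]
      exact hV H hH
    · rw [h2, sub_eq_zero]
      exact hI i j

/-- **Extension.** Holomorphic maps from the punctured disc extend in `V`. -/
theorem disc_ext (h : Good V t) (hVh : ∀ H ∈ V, ∃ e, H.IsHomogeneous e) (hd : ∀ i, 1 ≤ d i)
    {B : ℕ} {ι : Type} {F : ι → MvPolynomial (Fin (r + 1)) ℂ}
    (hFd : ∀ e, ∃ d', d' ≤ B ∧ (F e).IsHomogeneous d') (hF : Lifts V t F)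
    (hFx : ∀ x : Fin (M + 1) → ℂ, x ≠ 0 → OnV (K := ℂ) V x → ∀ y : Fin (r + 1) → ℂ, Img t x y →
      ∀ e, aeval y (F e) = 0) {X D : BiSet N M}
    (hXV : ∀ (u : Fin (N + 1) → ℂ) (v : Fin (M + 1) → ℂ), X.Mem u v → OnV (K := ℂ) V v) (hram : Ram X D t (Run7.h34.UG.mm r B))
    {u : ℂ → Fin (N + 1) → ℂ} {v : ℂ → Fin (M + 1) → ℂ} (huv : QDisc X D u v) : Extends v := by
  classical
  have hv := fun j => an_of_diffOn huv.diffv j
  have hmem : ∀ z ∈ PB 1, QMem X D (u z) (v z) := fun z hz => huv.mem z (mem_disc.mpr hz)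
  have hv0 : ∀ z ∈ PB 1, v z ≠ 0 := fun z hz => (hmem z hz).1.2.1
  have hvV : ∀ z ∈ PB 1, OnV (K := ℂ) V (v z) := fun z hz => hXV _ _ (hmem z hz).1
  obtain ⟨y, hy⟩ : ∃ y : ℂ → Fin (r + 1) → ℂ, y = fun z b => fv t (v z) b ^ eb d b := ⟨_, rfl⟩
  have hya : ∀ b, AnalyticOnNhd ℂ (fun z => y z b) (PB 1) := by
    intro b z hz
    rw [hy]
    exact (fv_an t (fun j => hv j z hz) b).fun_pow _
  have hy0 : ∀ z b, y z b = 0 ↔ fv t (v z) b = 0 := by
    intro z b
    rw [hy]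
    have := eb_pos hd b
    exact pow_eq_zero_iff (by omega)
  have hyn : ∀ z ∈ PB 1, y z ≠ 0 := by
    intro z hz h0
    obtain ⟨b, hb⟩ := h.exists_ne (hv0 z hz) (hvV z hz)
    exact hb ((hy0 z b).1 (congrFun h0 b))
  have himg : ∀ z, Img t (v z) (y z) := fun z i j => by
    rw [hy]
    exact mul_comm _ _
  have hnz : ∀ b, Nz (fun z => y z b) ↔ ∃ z ∈ PB 1, fv t (v z) b ≠ 0 := by
    intro b
    constructor
    · intro hn
      obtain ⟨z, hz, hne⟩ := nz_on one_pos hn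
      exact ⟨z, hz, fun h0 => hne ((hy0 z b).2 h0)⟩
    · rintro ⟨z, hz, hne⟩ hn
      exact hne ((hy0 z b).1 (eq_zero_on one_pos (hya b) hn z hz))
  have hyE : Extends y := by
    by_contra hE
    obtain ⟨w, -, ⟨i, j, hi, hj, hij⟩, hw⟩ := Run7.h34.UG.disc (n := r) (F := F) (d := B)
      (fun e => ⟨_, (hFd e).choose_spec.2⟩)
      (fun e => ((hFd e).choose_spec.2.totalDegree_le).trans (hFd e).choose_spec.1) hya hyn
      (fun z hz e => hFx (v z) (hv0 z hz) (hvV z hz) (y z) (himg z) e) (fun z hz hb => by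
        obtain ⟨b, hb1, hb2⟩ := hb
        obtain ⟨b', hb1', hb2'⟩ := dm hram huv hz ⟨b, (hnz b).1 hb1, (hy0 z b).1 hb2⟩
        refine ⟨b', (hnz b').2 hb1', hb2'.trans ?_⟩
        have h1 : analyticOrderAt (fun z => y z b') z =
            eb d b' • analyticOrderAt (fun z => fv t (v z) b') z := by
          rw [hy]
          exact analyticOrderAt_pow (fv_an t (fun j => hv j z hz) b') _
        rw [h1, nsmul_eq_mul]
        have h2 : (1 : ℕ∞) ≤ (eb d b' : ℕ∞) := by exact_mod_cast eb_pos hd b'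
        calc analyticOrderAt (fun z => fv t (v z) b') z
            = 1 * analyticOrderAt (fun z => fv t (v z) b') z := (one_mul _).symm
          _ ≤ _ := mul_le_mul_left h2 _) hE
    -- a point at which two coordinates do not vanish
    have hdom := aly_domain (PB_open 1) (PB_preconn one_pos) (PB_nonempty one_pos)
    obtain ⟨z1, hz1, hne1⟩ := nz_on one_pos hi
    obtain ⟨z2, hz2, hne2⟩ := nz_on one_pos hj
    have h1 : mk (fun z => y z i) (hya i) * mk (fun z => y z j) (hya j) ≠ 0 :=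
      mul_ne_zero (mk_ne (hya i) hz1 hne1) (mk_ne (hya j) hz2 hne2)
    obtain ⟨z, hz, hne⟩ : ∃ z ∈ PB 1, y z i * y z j ≠ 0 := by
      by_contra hcon
      push Not at hcon
      exact h1 (Subtype.ext (funext fun z => hcon z z.2))
    exact nospec h hd hF (L := ℂ) (y := y z) (b := fun l => (w l : ℤ))
      ⟨i, j, left_ne_zero_of_mul hne, right_ne_zero_of_mul hne, fun h0 => hij (by exact_mod_cast h0)⟩
      (fun e v' => hw e v' z hz)
  -- the lift
  obtain ⟨z0, hz0⟩ := PB_nonempty one_pos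
  obtain ⟨T, hT⟩ := fib_fin h hd (y z0) (hyn z0 hz0)
  exact extends_lift (X := gr hVh t) hv (fun z hz => (gr_mem hVh).2 ⟨hv0 z hz, hyn z hz, hvV z hz,
    himg z⟩) hyE hz0 ⟨T, fun x hx => by
      obtain ⟨hx1, -, hx2, hx3⟩ := (gr_mem hVh).1 hx
      exact hT x hx1 hx2 hx3⟩

end Pool.Agent.Run7.h789.RC
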