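import Pool.Agent.Run7.h789.RC.Ex

/-!
# The four properties
-/

set_option autoImplicit false
set_option synthInstance.maxHeartbeats 400000

open MvPolynomial Metric Filter Topology

namespace Pool.Agent.Run7.h789.RC

open Pool.Agent.NH29.GN (Idx Mon fv)
open Pool.Agent.W602.Cov Pool.Agent.W602.Cov.Cover Pool.Agent.W602.Cov.R Pool.Agent.W603.BP
open Pool.Agent.W601.PH Pool.Agent.TH152.HY
open Pool.Agent.W602.GT (coords LogGeneralType)
open Pool.Agent.Run7.h789.FV (mord mord_le exists_mord)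

variable {N M r : ℕ} {V : Set (MvPolynomial (Fin (M + 1)) ℂ)} {d : Fin (r + 1) → ℕ}
  {t : Idx M d → ℂ}

/-- good coefficients, with a system of equations of the image -/
structure Sys (V : Set (MvPolynomial (Fin (M + 1)) ℂ)) {d : Fin (r + 1) → ℕ} (t : Idx M d → ℂ)
    (B : ℕ) {ι : Type} (F : ι → MvPolynomial (Fin (r + 1)) ℂ) : Prop where
  gd : Good V t
  hom : ∀ H ∈ V, ∃ e, H.IsHomogeneous e
  pos : ∀ i, 1 ≤ d i
  deg : ∀ e, ∃ d', d' ≤ B ∧ (F e).IsHomogeneous d'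
  lift : Lifts V t F
  van : ∀ (L : Type) [Field L] [Algebra ℂ L] (x : Fin (M + 1) → L), x ≠ 0 →
    OnV (K := ℂ) V x → ∀ y : Fin (r + 1) → L, Img t x y → ∀ e, aeval y (F e) = 0

variable {B : ℕ} {ι : Type} {F : ι → MvPolynomial (Fin (r + 1)) ℂ}

theorem norm_eq {L : Type} [Field L] [Algebra ℂ L] {k : ℕ} (P : FF.Place ℂ L)
    {x : Fin k → L} (hx : x ≠ 0) : Norm P x (mord P x) := by
  refine ⟨fun j hj => mord_le P hj, ?_⟩
  exact exists_mord P (Function.ne_iff.1 hx)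

/-- `X` lies over `V` -/
def Over' (X : BiSet N M) (V : Set (MvPolynomial (Fin (M + 1)) ℂ)) : Prop :=
  ∀ (u : Fin (N + 1) → ℂ) (v : Fin (M + 1) → ℂ), X.Mem u v → ∀ H ∈ V, eval v H = 0

theorem onV_of {X : BiSet N M} (hXV : Over' X V) {L : Type} [Field L] [Algebra ℂ L]
    {a : Fin (N + 1) → L} {x : Fin (M + 1) → L} (h : X.Mem a x) : OnV (K := ℂ) V x := by
  intro H hH
  have h1 := null (G := rename Sum.inr H) (fun u v huv => by
    rw [eval_rename, Sum.elim_comp_inr]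
    exact hXV u v huv H hH) h
  rw [aeval_inr] at h1
  exact h1

theorem Sys.lgt (S : Sys V t B F) {X D : BiSet N M} (hXV : Over' X V)
    (hram : Ram X D t (Run7.h34.UG.mm r B)) {L : Type} [Field L] [Algebra ℂ L]
    {a : Fin (N + 1) → L} {x : Fin (M + 1) → L} (hmem : X.Mem a x) {w : ℕ} (hw : 0 < w)
    (htr : Algebra.trdeg ℂ L = w) (halg : Algebra.IsAlgebraic (coords ℂ x) L) :
    LogGeneralType ℂ L w (CentreIn D a x) :=
  lgt_cover S.gd S.hom S.pos S.deg S.lift hmem.2.1 (onV_of hXV hmem)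
    (fun y hy => S.van L x hmem.2.1 (onV_of hXV hmem) y hy) hw htr halg fun P hP hne =>
      hram L a x hmem P hP (mord P x) (norm_eq P hmem.2.1) hne

theorem Sys.disc (S : Sys V t B F) {X D : BiSet N M} (hXV : Over' X V)
    (hram : Ram X D t (Run7.h34.UG.mm r B)) {u : ℂ → Fin (N + 1) → ℂ} {v : ℂ → Fin (M + 1) → ℂ}
    (huv : QDisc X D u v) : Extends v :=
  disc_ext S.gd S.hom S.pos S.deg S.lift (S.van ℂ) (fun _ _ h => onV_of hXV h) hram huv

theorem Sys.entire (S : Sys V t B F) {X D : BiSet N M} (hXV : Over' X V)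
    (hram : Ram X D t (Run7.h34.UG.mm r B)) {u : ℂ → Fin (N + 1) → ℂ} {v : ℂ → Fin (M + 1) → ℂ}
    (hu : Differentiable ℂ u) (hv : Differentiable ℂ v) (hmem : ∀ z, QMem X D (u z) (v z))
    (z z' : ℂ) : ∃ s : ℂ, v z' = s • v z := by
  by_contra hcon
  push Not at hcon
  exact sin_not hv (fun z => (hmem z).1.2.1) ⟨z', z, hcon⟩ (S.disc hXV hram
    (u := fun w => u (Complex.sin w⁻¹)) (v := fun w => v (Complex.sin w⁻¹))
    ⟨sin_diff hu, sin_diff hv, fun z _ => hmem _⟩)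

theorem Sys.four (S : Sys V t B F) {X D : BiSet N M} (hXV : Over' X V)
    (hram : Ram X D t (Run7.h34.UG.mm r B)) {K : Type} [Field K] [Algebra ℂ K]
    {a : Fin (N + 1) → K} {b : Fin (M + 1) → K} (hK : X.FunctionField K a b)
    (halg : Algebra.IsAlgebraic
      (IntermediateField.adjoin ℂ {f : K | ∃ i j, b j ≠ 0 ∧ f = b i / b j}) K)
    {w : ℕ} (htr : Algebra.trdeg ℂ K = w) (hw : 0 < w) (hD : ¬ D.Mem a b) :
    Run7.h34.UG.Four X D K a b w := by
  classical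
  choose Dg mm' c hrel using fun i j => exists_rel hK halg i j
  let Q : MvPolynomial (Fin (M + 1)) ℂ :=
    ∏ i : Fin (N + 1), ∏ j : Fin (N + 1), c i j (mm' i j)
  obtain ⟨E, hQh⟩ : ∃ E, Q.IsHomogeneous E :=
    ⟨_, IsHomogeneous.prod _ _ _ fun i _ => IsHomogeneous.prod _ _ _ fun j _ =>
      (hrel i j).1.hom _ le_rfl⟩
  have hsplit : ∀ {L : Type} [Field L] [Algebra ℂ L] (y : Fin (M + 1) → L), aeval y Q ≠ 0 →
      ∀ i j, aeval y (c i j (mm' i j)) ≠ 0 := by
    intro L _ _ y hy i j h0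
    simp only [Q, map_prod] at hy
    exact hy (Finset.prod_eq_zero (Finset.mem_univ i) (Finset.prod_eq_zero (Finset.mem_univ j) h0))
  have hbQ : aeval b Q ≠ 0 := by
    simp only [Q, map_prod]
    exact Finset.prod_ne_zero_iff.mpr fun i _ =>
      Finset.prod_ne_zero_iff.mpr fun j _ => (hrel i j).2
  have hLang : LangOff X D (rename Sum.inr Q) := by
    intro L _ _ a' b' w' hmem _ hne hgen htr hw'
    rw [aeval_inr] at hne
    exact S.lgt hXV hram hmem hw' htr (alg_sub (fun i j => (hrel i j).1) hmem (hsplit b' hne) hgen)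
  have hPic : PicardOff X D (rename Sum.inr Q) := by
    rintro u v huv ⟨z0, hz0, hne⟩
    have hu := fun j => an_of_diffOn huv.diffu j
    have hmem : ∀ z ∈ PB 1, QMem X D (u z) (v z) := fun z hz => huv.mem z (mem_disc.mpr hz)
    have hne' : aeval (v z0) Q ≠ 0 := by
      rw [← aeval_inr (N := N) Q (u z0) (v z0)]
      exact hne
    have hE : Extends v := S.disc hXV hram huv
    exact ⟨extends_lift (X := conv X) hu (fun z hz => (hmem z hz).1) hE (mem_disc.mp hz0)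
      (fib_finite (fun i j => (hrel i j).1) (hsplit (v z0) hne')), hE⟩
  refine ⟨?_, rename Sum.inr Q, 0, E, biHom_rename hQh, ?_, hPic, brody_of_picard hPic, hLang⟩
  · exact hLang K a b w hK.mem hD (by rw [aeval_inr]; exact hbQ) hK.gen htr hw
  · have h1 : ∃ F ∈ D.eqs, aeval (Sum.elim a b) F ≠ 0 := by
      by_contra hcon
      push Not at hcon
      exact hD ⟨hK.mem.1, hK.mem.2.1, hcon⟩
    obtain ⟨F', hF', hFab⟩ := h1
    obtain ⟨e, e', he⟩ := D.hom F' hF'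
    have h2 : BiHom (F' * rename Sum.inr Q : BiPoly N M) (e + 0) (e' + E) := by
      have := IsWeightedHomogeneous.mul he (biHom_rename (N := N) hQh)
      exact this
    by_contra hcon
    push Not at hcon
    have h3 := (hK.van _ _ _ h2).2 (fun u v huv => by
      rw [map_mul]
      by_cases hFv : eval (Sum.elim u v) F' = 0
      · rw [hFv, zero_mul]
      · rw [hcon u v ⟨huv, fun hd => hFv (hd.2.2 F' hF')⟩, mul_zero])
    rw [map_mul, aeval_inr] at h3
    exact mul_ne_zero hFab hbQ h3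

/-- **The main theorem**, with equations of bounded degree. -/
theorem exists_sys {n : ℕ} (hV : ∀ H ∈ V, ∃ e, H.IsHomogeneous e)
    {ℓ : Fin (n + 1) → MvPolynomial (Fin (M + 1)) ℂ} (hℓ : ∀ j, (ℓ j).IsHomogeneous 1)
    (hN : Pool.Agent.NH29.GN.NoZero V ℓ) (hq : n + 1 ≤ r + 1) (hd : ∀ i, 1 ≤ d i)
    (hNum : ∀ C : Finset (Fin (r + 1)), C ≠ Finset.univ → Pool.Agent.NH29.GN.Num2 n d C) :
    ∃ (B : ℕ) (ι : Type) (Φ : MvPolynomial (Idx M d) ℂ), Φ ≠ 0 ∧ ∀ t : Idx M d → ℂ,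
      aeval t Φ ≠ 0 → ∃ F : ι → MvPolynomial (Fin (r + 1)) ℂ, Sys V t B F := by
  obtain ⟨Φ, h1, h2⟩ := good hV hℓ hN hq hd hNum
  obtain ⟨B, ι, h3⟩ := elim hV d
  refine ⟨B, ι, Φ, h1, fun t ht => ?_⟩
  obtain ⟨F, h4, h5, h6⟩ := h3 ℂ t
  exact ⟨F, h2 ℂ t ht, hV, hd, h4, h6, h5⟩

end Pool.Agent.Run7.h789.RC
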