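import Pool.Agent.Run7.h789.RC.Qf
import Mathlib.RingTheory.Nullstellensatz

/-!
# Polynomials which vanish at the rational points
-/

set_option autoImplicit false

open MvPolynomial FF

namespace Pool.Agent.Run7.h789.RC

open Pool.Agent.W602.GT (coords GeneralType LogGeneralType)

variable {N M : ℕ} {K : Type} [Field K]

theorem null' [IsAlgClosed K] {X : Set (MvPolynomial (Fin (N + 1) ⊕ Fin (M + 1)) K)}
    {H : MvPolynomial (Fin (M + 1)) K}
    (h : ∀ (a : Fin (N + 1) → K) (x : Fin (M + 1) → K), Pt X a x → aeval x H = 0) {L : Type}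
    [Field L] [Algebra K L] {a : Fin (N + 1) → L} {x : Fin (M + 1) → L} (hp : Pt X a x) :
    aeval x H = 0 := by
  classical
  obtain ⟨i, hi⟩ := Function.ne_iff.1 hp.1
  obtain ⟨j, hj⟩ := Function.ne_iff.1 hp.2.1
  let P : MvPolynomial (Fin (N + 1) ⊕ Fin (M + 1)) K :=
    MvPolynomial.X (Sum.inl i) * MvPolynomial.X (Sum.inr j) * rename Sum.inr H
  have hval : ∀ (E : Type) [Field E] [Algebra K E] (u : Fin (N + 1) → E) (v : Fin (M + 1) → E),
      aeval (Sum.elim u v) P = u i * v j * aeval v H := by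
    intro E _ _ u v
    simp only [P, map_mul, aeval_X, Sum.elim_inl, Sum.elim_inr, aeval_rename, Sum.elim_comp_inr]
  have h1 : P ∈ vanishingIdeal K (zeroLocus K (Ideal.span X)) := by
    rw [mem_vanishingIdeal_iff]
    intro y hy
    rw [mem_zeroLocus_iff] at hy
    obtain ⟨u, v, rfl⟩ : ∃ (u : Fin (N + 1) → K) (v : Fin (M + 1) → K), y = Sum.elim u v :=
      ⟨y ∘ Sum.inl, y ∘ Sum.inr, (Sum.elim_comp_inl_inr y).symm⟩
    rw [hval]
    by_cases hu : u i = 0
    · rw [hu, zero_mul, zero_mul]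
    by_cases hv : v j = 0
    · rw [hv, mul_zero, zero_mul]
    rw [h u v ⟨fun h0 => hu (congrFun h0 i), fun h0 => hv (congrFun h0 j), fun G hG =>
      hy G (Ideal.subset_span hG)⟩, mul_zero]
  rw [vanishingIdeal_zeroLocus_eq_radical] at h1
  obtain ⟨s, hs⟩ := h1
  have h2 : Ideal.span X ≤ RingHom.ker
      ((aeval (Sum.elim a x) : MvPolynomial (Fin (N + 1) ⊕ Fin (M + 1)) K →ₐ[K] L) :
        MvPolynomial (Fin (N + 1) ⊕ Fin (M + 1)) K →+* L) :=
    Ideal.span_le.2 fun G hG => hp.2.2 G hG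
  have h3 : (aeval (Sum.elim a x) P) ^ s = 0 := by
    have := h2 hs
    rw [RingHom.mem_ker, map_pow] at this
    exact this
  have h4 : aeval (Sum.elim a x) P = 0 := by
    by_contra h0
    exact pow_ne_zero s h0 h3
  rw [hval] at h4
  exact (mul_eq_zero.1 h4).resolve_left (mul_ne_zero hi hj)

/-- log general type without boundary -/
theorem gt_of_lgt {L : Type} [Field L] [Algebra K L] {w : ℕ}
    (h : LogGeneralType K L w fun _ => False) : GeneralType K L w := by
  obtain ⟨h1, N', hN, ω, h2, -, h3, h4⟩ := h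
  exact ⟨h1, N', hN, ω, h2, fun P hP j => h3 P hP (fun h => h) j, h4⟩

end Pool.Agent.Run7.h789.RC
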