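import Pool.Agent.Run7.h789.RC.Fo
import Pool.Agent.Run7.h789.RC.Nst

/-!
# Varieties over the complement of hypersurfaces have no contacts with them
-/

set_option autoImplicit false
set_option synthInstance.maxHeartbeats 400000

open MvPolynomial

namespace Pool.Agent.Run7.h789.RC

open Pool.Agent.NH29.GN (Idx Mon fv val)
open Pool.Agent.W602.Cov.R (BiSet BiPoly BiHom)
open Pool.Agent.TH152.HY (QMem CentreIn Norm null)
open Pool.Agent.W603.LV (Ge)
open Pool.Agent.Run7.h789.FV (mord mord_le exists_mord)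

variable {N M : ℕ}

theorem bi_scale {G : BiPoly N M} {E E' : ℕ} (hG : BiHom G E E') {L : Type} [Field L]
    [Algebra ℂ L] (s s' : L) (a : Fin (N + 1) → L) (x : Fin (M + 1) → L) :
    aeval (Sum.elim (fun i => s * a i) fun j => s' * x j) G =
      s ^ E * s' ^ E' * aeval (Sum.elim a x) G := by
  classical
  rw [aeval_def, aeval_def, eval₂_eq', eval₂_eq', Finset.mul_sum]
  refine Finset.sum_congr rfl fun α hα => ?_
  have h1 := hG (mem_support_iff.1 hα)
  rw [Finsupp.weight_apply, Finsupp.sum_fintype _ _ (by simp)] at h1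
  rw [Fintype.sum_sum_type] at h1
  simp only [Sum.elim_inl, Sum.elim_inr] at h1
  have h2 : ∑ i, α (Sum.inl i) = E := by
    have := congrArg Prod.fst h1
    simpa [Prod.fst_sum] using this
  have h3 : ∑ j, α (Sum.inr j) = E' := by
    have := congrArg Prod.snd h1
    simpa [Prod.snd_sum] using this
  rw [Fintype.prod_sum_type, Fintype.prod_sum_type]
  simp only [Sum.elim_inl, Sum.elim_inr, mul_pow, Finset.prod_mul_distrib,
    Finset.prod_pow_eq_pow_sum, h2, h3]
  ring

theorem ge_pol {L : Type} [Field L] [Algebra ℂ L] (P : FF.Place ℂ L)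
    {y : Fin (N + 1) ⊕ Fin (M + 1) → L} (hy : ∀ s, Ge P 0 (y s)) (G : BiPoly N M) :
    Ge P 0 (aeval y G) := by
  induction G using MvPolynomial.induction_on with
  | C a => rw [aeval_C]; exact Ge.const a
  | add p q hp hq => rw [map_add]; exact hp.add hq
  | mul_X p j hp => rw [map_mul, aeval_X]; simpa using hp.mul (hy j)

/-- `X - D` lies over the stratum of the points with `F_c = 0` for `c ∈ C` and `F_b ≠ 0` for `b` not
in `C`. -/
def OverStratum {q : ℕ} {d : Fin q → ℕ} (X D : BiSet N M) (t : Idx M d → ℂ)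
    (C : Finset (Fin q)) : Prop :=
  ∀ u v, QMem X D u v → (∀ c ∈ C, fv t v c = 0) ∧ ∀ b, b ∉ C → fv t v b ≠ 0

/-- **No contacts.** -/
theorem nocontact {q : ℕ} {d : Fin q → ℕ} {X D : BiSet N M} {t : Idx M d → ℂ}
    {C : Finset (Fin q)} (hO : OverStratum X D t C) {L : Type} [Field L] [Algebra ℂ L]
    {a : Fin (N + 1) → L} {x : Fin (M + 1) → L} (hX : X.Mem a x) {P : FF.Place ℂ L}
    (hP : ¬ CentreIn D a x P) : (∀ c ∈ C, fv t x c = 0) ∧
      ∀ b, b ∉ C → fv t x b ≠ 0 ∧ P.ord (fv t x b) = d b * mord P x := by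
  classical
  unfold CentreIn at hP
  push Not at hP
  obtain ⟨c, c', hc, hc', G, hG, E, E', hGh, hG0, hGo⟩ := hP
  -- the forms
  let f : (b : Fin q) → MvPolynomial (Fin (M + 1)) ℂ := fun b =>
    ∑ β : Mon M (d b), monomial β.1 (t ⟨b, β⟩)
  have hf : ∀ (E : Type) [Field E] [Algebra ℂ E] (z : Fin (M + 1) → E) (b : Fin q),
      aeval z (f b) = fv t z b := by
    intro E _ _ z b
    change aeval z (∑ β : Mon M (d b), monomial β.1 (t ⟨b, β⟩)) = _
    unfold fv
    rw [map_sum]
    refine Finset.sum_congr rfl fun β _ => ?_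
    rw [aeval_monomial]
    congr 1
    unfold val
    rw [Finsupp.prod_fintype]
    intro i
    exact pow_zero _
  have hGD : ∀ u v, X.Mem u v → eval (Sum.elim u v) G ≠ 0 → QMem X D u v := fun u v h1 h2 =>
    ⟨h1, fun h3 => h2 (h3.2.2 G hG)⟩
  refine ⟨fun c hc => ?_, fun b hb => ?_⟩
  · have h1 := null (X := X) (G := G * rename Sum.inr (f c)) (fun u v huv => by
      rw [map_mul, eval_rename, Sum.elim_comp_inr]
      by_cases h2 : eval (Sum.elim u v) G = 0
      · rw [h2, zero_mul]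
      · have h3 := (hO u v (hGD u v huv h2)).1 c hc
        have h4 : eval v (f c) = fv t v c := hf ℂ v c
        rw [h4, h3, mul_zero]) hX
    rw [map_mul, aeval_rename, Sum.elim_comp_inr, hf] at h1
    exact (mul_eq_zero.1 h1).resolve_left hG0
  · -- the normalised point
    obtain ⟨i₀, hi₀, hi₀c⟩ := hc.2
    obtain ⟨j₀, hj₀, hj₀c⟩ := hc'.2
    let a' : Fin (N + 1) → L := fun i => (a i₀)⁻¹ * a i
    let x' : Fin (M + 1) → L := fun j => (x j₀)⁻¹ * x j
    have ha' : ∀ i, Ge P 0 (a' i) := by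
      intro i
      by_cases h0 : a i = 0
      · left
        change (a i₀)⁻¹ * a i = 0
        rw [h0, mul_zero]
      · right
        change 0 ≤ P.ord ((a i₀)⁻¹ * a i)
        rw [P.ord_mul (inv_ne_zero hi₀) h0, P.ord_inv]
        have := hc.1 i h0
        omega
    have hx' : ∀ i, Ge P 0 (x' i) := by
      intro i
      by_cases h0 : x i = 0
      · left
        change (x j₀)⁻¹ * x i = 0
        rw [h0, mul_zero]
      · right
        change 0 ≤ P.ord ((x j₀)⁻¹ * x i)
        rw [P.ord_mul (inv_ne_zero hj₀) h0, P.ord_inv]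
        have := hc'.1 i h0
        omega
    have hs : ∀ s, Ge P 0 (Sum.elim a' x' s) := by
      rintro (s | s)
      · exact ha' s
      · exact hx' s
    have hXv : ∀ H ∈ X.eqs, aeval (Sum.elim a' x') H = 0 := by
      intro H hH
      obtain ⟨e, e', he⟩ := X.hom H hH
      change aeval (Sum.elim (fun i => (a i₀)⁻¹ * a i) fun j => (x j₀)⁻¹ * x j) H = 0
      rw [bi_scale he, hX.2.2 H hH, mul_zero]
    have hGv : aeval (Sum.elim a' x') G = ((a i₀)⁻¹) ^ E * ((x j₀)⁻¹) ^ E' *
        aeval (Sum.elim a x) G := bi_scale hGh _ _ a x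
    -- the Nullstellensatz
    let I : Ideal (BiPoly N M) := Ideal.span X.eqs ⊔ Ideal.span {rename Sum.inr (f b)}
    let Q : BiPoly N M := MvPolynomial.X (Sum.inl i₀) * MvPolynomial.X (Sum.inr j₀) * G
    have h1 : Q ∈ vanishingIdeal ℂ (zeroLocus ℂ I) := by
      rw [mem_vanishingIdeal_iff]
      intro y hy
      rw [mem_zeroLocus_iff] at hy
      obtain ⟨u, v, rfl⟩ : ∃ (u : Fin (N + 1) → ℂ) (v : Fin (M + 1) → ℂ), y = Sum.elim u v :=
        ⟨y ∘ Sum.inl, y ∘ Sum.inr, (Sum.elim_comp_inl_inr y).symm⟩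
      simp only [Q, map_mul, aeval_X, Sum.elim_inl, Sum.elim_inr]
      by_cases hu : u i₀ = 0
      · rw [hu, zero_mul, zero_mul]
      by_cases hv : v j₀ = 0
      · rw [hv, mul_zero, zero_mul]
      by_cases hGuv : aeval (Sum.elim u v) G = 0
      · rw [hGuv, mul_zero]
      exfalso
      have h2 : X.Mem u v := ⟨fun h0 => hu (congrFun h0 i₀), fun h0 => hv (congrFun h0 j₀),
        fun H hH => hy H (Ideal.mem_sup_left (Ideal.subset_span hH))⟩
      have h3 := (hO u v (hGD u v h2 hGuv)).2 b hb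
      have h4 := hy (rename Sum.inr (f b)) (Ideal.mem_sup_right (Ideal.subset_span rfl))
      rw [aeval_rename, Sum.elim_comp_inr, hf] at h4
      exact h3 h4
    rw [vanishingIdeal_zeroLocus_eq_radical] at h1
    obtain ⟨s, hsI⟩ := h1
    obtain ⟨p, hp, p', hp', hsum⟩ := Submodule.mem_sup.1 hsI
    obtain ⟨R, hR⟩ := Ideal.mem_span_singleton'.1 hp'
    have hp0 : aeval (Sum.elim a' x') p = 0 := by
      have h2 : Ideal.span X.eqs ≤ RingHom.ker
          ((aeval (Sum.elim a' x') : BiPoly N M →ₐ[ℂ] L) : BiPoly N M →+* L) :=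
        Ideal.span_le.2 fun G hG => hXv G hG
      exact h2 hp
    have hQ : aeval (Sum.elim a' x') Q = aeval (Sum.elim a' x') G := by
      have h2 : a' i₀ = 1 := inv_mul_cancel₀ hi₀
      have h3 : x' j₀ = 1 := inv_mul_cancel₀ hj₀
      simp only [Q, map_mul, aeval_X, Sum.elim_inl, Sum.elim_inr, h2, h3, one_mul]
    have hGs : aeval (Sum.elim a' x') G ^ s = aeval (Sum.elim a' x') R * fv t x' b := by
      rw [← hQ, ← map_pow, ← hsum, map_add, hp0, zero_add, ← hR, map_mul, aeval_rename,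
        Sum.elim_comp_inr, hf]
    have hGne : aeval (Sum.elim a' x') G ≠ 0 := by
      rw [hGv]
      exact mul_ne_zero (mul_ne_zero (pow_ne_zero _ (inv_ne_zero hi₀))
        (pow_ne_zero _ (inv_ne_zero hj₀))) hG0
    have hGord : P.ord (aeval (Sum.elim a' x') G) ≤ 0 := by
      rw [hGv, P.ord_mul (mul_ne_zero (pow_ne_zero _ (inv_ne_zero hi₀))
        (pow_ne_zero _ (inv_ne_zero hj₀))) hG0, P.ord_mul (pow_ne_zero _ (inv_ne_zero hi₀))
        (pow_ne_zero _ (inv_ne_zero hj₀)), P.ord_pow, P.ord_pow, P.ord_inv, P.ord_inv, hi₀c, hj₀c]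
      linarith
    have hfx : fv t x' b = ((x j₀)⁻¹) ^ d b * fv t x b :=
      Pool.Agent.NH29.GN.Ncz.fv_smul t ((x j₀)⁻¹) x b
    have hne : fv t x' b ≠ 0 := by
      intro h0
      rw [h0, mul_zero] at hGs
      exact pow_ne_zero s hGne hGs
    have hne' : fv t x b ≠ 0 := by
      intro h0
      rw [hfx, h0, mul_zero] at hne
      exact hne rfl
    have h5 : P.ord (fv t x' b) ≤ 0 := by
      by_contra hcon
      push Not at hcon
      have h6 : Ge P 1 (aeval (Sum.elim a' x') R * fv t x' b) := by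
        have h7 : Ge P 1 (fv t x' b) := Or.inr (by omega)
        have := (ge_pol P hs R).mul h7
        rwa [zero_add] at this
      rw [← hGs] at h6
      have h7 := h6.resolve_left (pow_ne_zero s hGne)
      rw [P.ord_pow] at h7
      have h8 : (0 : ℤ) ≤ s := Int.natCast_nonneg s
      nlinarith
    have h6 : 0 ≤ P.ord (fv t x' b) := by
      have h7 := ge_pol P hs (rename Sum.inr (f b))
      rw [aeval_rename, Sum.elim_comp_inr, hf] at h7
      exact h7.resolve_left hne
    have h7 : mord P x = c' := by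
      refine le_antisymm ?_ ?_
      · rw [← hj₀c]
        exact mord_le P hj₀
      · obtain ⟨j, hj, hj'⟩ := exists_mord P ⟨j₀, hj₀⟩
        rw [← hj']
        exact hc'.1 j hj
    refine ⟨hne', ?_⟩
    rw [hfx, P.ord_mul (pow_ne_zero _ (inv_ne_zero hj₀)) hne', P.ord_pow, P.ord_inv, hj₀c] at h5 h6
    rw [h7]
    linarith

/-- varieties over a stratum are ramified to any order -/
theorem ram_of_stratum {q : ℕ} {d : Fin q → ℕ} {X D : BiSet N M} {t : Idx M d → ℂ}
    {C : Finset (Fin q)} (hO : OverStratum X D t C) (m : ℕ) : Ram X D t m := by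
  intro L _ _ a x hX P hP c hc hne
  exfalso
  obtain ⟨b, hb, hb1⟩ := hne
  obtain ⟨h1, h2⟩ := nocontact hO hX hP
  have hbC : b ∉ C := fun h => hb (h1 b h)
  apply hb1
  rw [(h2 b hbC).2]
  have h7 : mord P x = c := by
    obtain ⟨j₀, hj₀, hj₀c⟩ := hc.2
    refine le_antisymm ?_ ?_
    · rw [← hj₀c]
      exact mord_le P hj₀
    · obtain ⟨j, hj, hj'⟩ := exists_mord P ⟨j₀, hj₀⟩
      rw [← hj']
      exact hc.1 j hj
  rw [h7]

end Pool.Agent.Run7.h789.RC
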